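import Mathlib

/-!
Points of the Fermat curve of exponent `2 ^ k` modulo composite Fermat numbers.
-/

namespace Pool.Agent.L0h40.GS

open Finset

/-- free actions -/
theorem free_dvd {G α : Type} [Group G] [MulAction G α] [Finite α] [Finite G]
    (h : ∀ (g : G) (x : α), g • x = x → g = 1) : Nat.card G ∣ Nat.card α := by
  classical
  have e := MulAction.selfEquivSigmaOrbitsQuotientStabilizer G α
  rw [Nat.card_congr e]
  have : Fintype (Quotient (MulAction.orbitRel G α)) := Fintype.ofFinite _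
  rw [Nat.card_sigma]
  refine Finset.dvd_sum fun ω _ => ?_
  have h1 := Subgroup.card_eq_card_quotient_mul_card_subgroup
    (MulAction.stabilizer G (Quotient.out ω))
  have h2 : MulAction.stabilizer G (Quotient.out ω) = ⊥ := by
    rw [Subgroup.eq_bot_iff_forall]
    intro g hg
    exact h g _ hg
  rw [h2, Subgroup.card_bot, mul_one] at h1
  rw [h2, ← h1]

theorem unit_sub_one {a k : ℕ} (ha : Odd a) {θ : ZMod a}
    (hθ : θ ^ 2 ^ (k - 1) = -1) {j : ℕ} (hj : ¬ 2 ^ k ∣ j) : IsUnit (θ ^ j - 1) := by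
  have hj0 : j ≠ 0 := by
    intro h
    apply hj
    rw [h]
    exact dvd_zero _
  obtain ⟨s, j', hj', hjs⟩ := Nat.exists_eq_two_pow_mul_odd hj0
  have hs : s < k := by
    by_contra h
    apply hj
    rw [hjs]
    exact Dvd.dvd.mul_right (pow_dvd_pow 2 (by omega)) _
  have h1 : (θ ^ j) ^ 2 ^ (k - 1 - s) = -1 := by
    rw [← pow_mul, hjs]
    have : 2 ^ s * j' * 2 ^ (k - 1 - s) = 2 ^ (k - 1) * j' := by
      have : 2 ^ (k - 1) = 2 ^ s * 2 ^ (k - 1 - s) := by
        rw [← pow_add]; congr 1; omega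
      rw [this]; ring
    rw [this, pow_mul, hθ, hj'.neg_one_pow]
  have h2 : θ ^ j - 1 ∣ (θ ^ j) ^ 2 ^ (k - 1 - s) - 1 := sub_one_dvd_pow_sub_one _ _
  rw [h1] at h2
  apply isUnit_of_dvd_unit h2
  have h3 : (-1 - 1 : ZMod a) = -((2 : ℕ) : ZMod a) := by push_cast; ring
  rw [h3, IsUnit.neg_iff]
  exact (ZMod.isUnit_iff_coprime 2 a).2 (Nat.coprime_two_left.2 ha)

/-- the number of nonzero roots -/
theorem dvd_roots {a k : ℕ} (ha : Odd a) (ha1 : 1 < a) (hk : 1 ≤ k) {θ : ZMod a}
    (hθ : θ ^ 2 ^ (k - 1) = -1) (u : ZMod a) :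
    2 ^ k ∣ Nat.card {x : ZMod a // x ≠ 0 ∧ x ^ 2 ^ k = u} := by
  classical
  have : NeZero a := ⟨by omega⟩
  have hkk : 2 ^ k = 2 ^ (k - 1) * 2 := by
    rw [← pow_succ]; congr 1; omega
  have hθN : θ ^ 2 ^ k = 1 := by
    rw [hkk, pow_mul, hθ]; norm_num
  have hθu : IsUnit θ := IsUnit.of_pow_eq_one hθN (by positivity)
  obtain ⟨t, ht⟩ := hθu
  have htN : t ^ 2 ^ k = 1 := by
    ext
    rw [Units.val_pow_eq_pow_val, ht, hθN, Units.val_one]
  have hne : (-1 : ZMod a) ≠ 1 := by
    have : Fact (2 < a) := ⟨by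
      obtain ⟨c, hc⟩ := ha
      omega⟩
    exact ZMod.neg_one_ne_one
  have hto : orderOf t = 2 ^ k := by
    obtain ⟨j, rfl⟩ : ∃ j, k = j + 1 := ⟨k - 1, by omega⟩
    apply orderOf_eq_prime_pow
    · intro h
      apply hne
      rw [Nat.add_sub_cancel] at hθ
      rw [← hθ, ← ht, ← Units.val_pow_eq_pow_val, h, Units.val_one]
    · exact htN
  let S : SubMulAction (Subgroup.zpowers t) (ZMod a) :=
    { carrier := {x | x ≠ 0 ∧ x ^ 2 ^ k = u}
      smul_mem' := by
        rintro ⟨g, hg⟩ x ⟨hx1, hx2⟩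
        have h1 : (⟨g, hg⟩ : Subgroup.zpowers t) • x = (g : ZMod a) * x := rfl
        rw [h1]
        refine ⟨?_, ?_⟩
        · intro h
          exact hx1 ((Units.mul_right_eq_zero g).1 h)
        · have h2 : g ^ 2 ^ k = 1 := by
            obtain ⟨n, hn⟩ := Subgroup.mem_zpowers_iff.1 hg
            rw [← hn, ← zpow_natCast, ← zpow_mul, mul_comm, zpow_mul, zpow_natCast, htN, one_zpow]
          have h3 : (g : ZMod a) ^ 2 ^ k = 1 := by
            rw [← Units.val_pow_eq_pow_val, h2, Units.val_one]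
          rw [mul_pow, h3, one_mul, hx2] }
  have h1 : Nat.card (Subgroup.zpowers t) ∣ Nat.card S := by
    apply free_dvd
    rintro ⟨g, hg⟩ ⟨x, hx1, hx2⟩ h
    have h2 : (g : ZMod a) * x = x := congrArg Subtype.val h
    obtain ⟨n, hn⟩ := (isOfFinOrder_of_finite t).mem_powers_iff_mem_zpowers.2 hg
    have hn' : t ^ n = g := hn
    by_contra h3
    have h4 : ¬ 2 ^ k ∣ n := by
      intro h5
      apply h3
      obtain ⟨c, hc⟩ := h5
      have h6 : g = 1 := by rw [← hn', hc, pow_mul, htN, one_pow]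
      exact Subtype.ext h6
    have h5 := unit_sub_one ha hθ h4
    have h6 : (θ ^ n - 1) * x = 0 := by
      have h7 : (g : ZMod a) = θ ^ n := by rw [← hn', Units.val_pow_eq_pow_val, ht]
      rw [← h7]
      linear_combination h2
    exact hx1 ((IsUnit.mul_right_eq_zero h5).1 h6)
  rw [Nat.card_zpowers, hto] at h1
  exact h1

open scoped Classical in
/-- the number of points is divisible by `2 ^ (k + 1)` -/
theorem dvd_points {a k : ℕ} (ha : Odd a) (ha1 : 1 < a) (hk : 1 ≤ k) {θ : ZMod a}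
    (hθ : θ ^ 2 ^ (k - 1) = -1) :
    2 ^ (k + 1) ∣ Nat.card {z : ZMod a × ZMod a // z.1 ^ 2 ^ k + z.2 ^ 2 ^ k = 1} := by
  have : NeZero a := ⟨by omega⟩
  have h10 : (1 : ZMod a) ≠ 0 := by
    have : Fact (1 < a) := ⟨ha1⟩
    exact one_ne_zero
  let c : ZMod a → ℕ := fun u => (univ.filter (fun x : ZMod a => x ≠ 0 ∧ x ^ 2 ^ k = u)).card
  have hc : ∀ u, 2 ^ k ∣ c u := by
    intro u
    have h1 := dvd_roots ha ha1 hk hθ u
    rw [Nat.card_eq_fintype_card, Fintype.card_subtype] at h1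
    exact h1
  have hd : ∀ u, (univ.filter (fun x : ZMod a => x ^ 2 ^ k = u)).card =
      c u + if u = 0 then 1 else 0 := by
    intro u
    have h1 : univ.filter (fun x : ZMod a => x ^ 2 ^ k = u) =
        univ.filter (fun x : ZMod a => x ≠ 0 ∧ x ^ 2 ^ k = u) ∪
        univ.filter (fun x : ZMod a => x = 0 ∧ x ^ 2 ^ k = u) := by
      ext x
      simp only [Finset.mem_filter, Finset.mem_union, Finset.mem_univ, true_and]
      tauto
    rw [h1, Finset.card_union_of_disjoint]
    · congr 1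
      split_ifs with hu
      · have h2 : univ.filter (fun x : ZMod a => x = 0 ∧ x ^ 2 ^ k = u) = {0} := by
          ext x
          rw [Finset.mem_filter, Finset.mem_singleton]
          constructor
          · rintro ⟨_, h, _⟩
            exact h
          · intro h
            refine ⟨mem_univ _, h, ?_⟩
            rw [h, zero_pow (by positivity), hu]
        rw [h2, Finset.card_singleton]
      · rw [Finset.card_eq_zero, Finset.filter_eq_empty_iff]
        rintro x _ ⟨h2, h3⟩
        rw [h2, zero_pow (by positivity)] at h3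
        exact hu h3.symm
    · rw [Finset.disjoint_left]
      intro x hx hx'
      rw [Finset.mem_filter] at hx hx'
      exact hx.2.1 hx'.2.1
  have h1 : Nat.card {z : ZMod a × ZMod a // z.1 ^ 2 ^ k + z.2 ^ 2 ^ k = 1} =
      ∑ u : ZMod a, (univ.filter (fun x : ZMod a => x ^ 2 ^ k = u)).card *
        (univ.filter (fun x : ZMod a => x ^ 2 ^ k = 1 - u)).card := by
    rw [Nat.card_eq_fintype_card, Fintype.card_subtype]
    have h2 : (univ.filter (fun z : ZMod a × ZMod a => z.1 ^ 2 ^ k + z.2 ^ 2 ^ k = 1)) =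
        univ.biUnion (fun u : ZMod a => (univ.filter (fun x : ZMod a => x ^ 2 ^ k = u)) ×ˢ
          (univ.filter (fun x : ZMod a => x ^ 2 ^ k = 1 - u))) := by
      ext z
      simp only [Finset.mem_filter, Finset.mem_univ, true_and, Finset.mem_biUnion,
        Finset.mem_product]
      constructor
      · intro h
        exact ⟨z.1 ^ 2 ^ k, rfl, by rw [← h]; ring⟩
      · rintro ⟨u, h1, h2⟩
        rw [h1, h2]; ring
    rw [h2, Finset.card_biUnion]
    · refine Finset.sum_congr rfl fun u _ => ?_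
      rw [Finset.card_product]
    · intro u _ v _ huv
      rw [Function.onFun, Finset.disjoint_left]
      intro z hz hz'
      rw [Finset.mem_product, Finset.mem_filter] at hz hz'
      exact huv (hz.1.2.symm.trans hz'.1.2)
  have h2 : ∀ u : ZMod a, (univ.filter (fun x : ZMod a => x ^ 2 ^ k = u)).card *
        (univ.filter (fun x : ZMod a => x ^ 2 ^ k = 1 - u)).card =
        c u * c (1 - u) + (if u = 0 then c (1 - u) else 0) +
        (if 1 - u = 0 then c u else 0) := by
    intro u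
    rw [hd, hd]
    by_cases hu : u = 0
    · have h3 : (1 : ZMod a) - 0 ≠ 0 := by rw [sub_zero]; exact h10
      rw [hu, if_pos rfl, if_neg h3, if_pos rfl, if_neg h3]
      ring
    · by_cases hu1 : 1 - u = 0
      · rw [if_neg hu, if_pos hu1, if_neg hu, if_pos hu1]
        ring
      · rw [if_neg hu, if_neg hu1, if_neg hu, if_neg hu1]
        ring
  rw [h1, Finset.sum_congr rfl (fun u _ => h2 u), Finset.sum_add_distrib, Finset.sum_add_distrib]
  have h3 : ∑ u : ZMod a, (if u = 0 then c (1 - u) else 0) = c 1 := by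
    rw [Finset.sum_ite_eq' univ (0 : ZMod a), if_pos (mem_univ _), sub_zero]
  have h4 : ∑ u : ZMod a, (if 1 - u = 0 then c u else 0) = c 1 := by
    have h5 : ∀ u : ZMod a, (if 1 - u = 0 then c u else 0) = (if u = 1 then c u else 0) := by
      intro u
      by_cases h : u = 1
      · rw [if_pos h, if_pos (by rw [h]; ring)]
      · rw [if_neg h, if_neg]
        intro h6
        exact h (sub_eq_zero.1 h6).symm
    rw [Finset.sum_congr rfl (fun u _ => h5 u), Finset.sum_ite_eq' univ (1 : ZMod a),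
      if_pos (mem_univ _)]
  rw [h3, h4, add_assoc, ← two_mul]
  apply dvd_add
  · refine Finset.dvd_sum fun u _ => ?_
    have h5 : 2 ^ k * 2 ^ k ∣ c u * c (1 - u) := mul_dvd_mul (hc u) (hc _)
    refine dvd_trans ?_ h5
    rw [← pow_add]
    exact pow_dvd_pow 2 (by omega)
  · rw [pow_succ']
    exact mul_dvd_mul_left 2 (hc 1)

/-- multiplicativity -/
theorem points_mul {a b : ℕ} (h : Nat.Coprime a b) (N : ℕ) :
    Nat.card {z : ZMod (a * b) × ZMod (a * b) // z.1 ^ N + z.2 ^ N = 1} =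
      Nat.card {z : ZMod a × ZMod a // z.1 ^ N + z.2 ^ N = 1} *
      Nat.card {z : ZMod b × ZMod b // z.1 ^ N + z.2 ^ N = 1} := by
  rw [← Nat.card_prod]
  let e := ZMod.chineseRemainder h
  refine Nat.card_congr ?_
  refine Equiv.trans ?_ (Equiv.subtypeProdEquivProd
    (p := fun z : ZMod a × ZMod a => z.1 ^ N + z.2 ^ N = 1)
    (q := fun z : ZMod b × ZMod b => z.1 ^ N + z.2 ^ N = 1))
  refine Equiv.subtypeEquiv ((Equiv.prodCongr e.toEquiv e.toEquiv).trans
    (Equiv.prodProdProdComm (ZMod a) (ZMod b) (ZMod a) (ZMod b))) ?_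
  rintro ⟨x, y⟩
  have h1 : x ^ N + y ^ N = 1 ↔ e (x ^ N + y ^ N) = e 1 := (e.injective.eq_iff).symm
  change x ^ N + y ^ N = 1 ↔ ((e x).1 ^ N + (e y).1 ^ N = 1 ∧ (e x).2 ^ N + (e y).2 ^ N = 1)
  rw [h1, map_add, map_pow, map_pow, map_one, Prod.ext_iff]
  rfl

/-- composite Fermat numbers are not prime powers -/
theorem split {m : ℕ} (hm : 1 ≤ m) (hF : ¬ (2 ^ 2 ^ m + 1).Prime) :
    ∃ a b : ℕ, 1 < a ∧ 1 < b ∧ Nat.Coprime a b ∧ 2 ^ 2 ^ m + 1 = a * b := by
  obtain ⟨n, hn⟩ : ∃ n, n = 2 ^ 2 ^ m + 1 := ⟨_, rfl⟩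
  rw [← hn] at hF ⊢
  have hn1 : 1 < n := by
    have : 1 ≤ 2 ^ 2 ^ m := Nat.one_le_two_pow
    have h2 : 2 ^ 2 ^ m ≠ 0 := by positivity
    omega
  have hq := Nat.minFac_prime (by omega : n ≠ 1)
  have hqn := Nat.minFac_dvd n
  obtain ⟨e, b, hb, hnb⟩ := Nat.exists_eq_pow_mul_and_not_dvd (by omega : n ≠ 0) n.minFac
    hq.ne_one
  obtain ⟨q, hqd⟩ : ∃ q, q = n.minFac := ⟨_, rfl⟩
  rw [← hqd] at hq hqn hb hnb
  have he : e ≠ 0 := by
    intro h
    rw [h, pow_zero, one_mul] at hnb
    exact hb (hnb ▸ hqn)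
  have hodd : Odd n := by
    rw [hn]
    exact Even.add_one (Nat.even_pow.2 ⟨even_two, by positivity⟩)
  have hqodd : Odd q := by
    rcases hq.eq_two_or_odd' with h | h
    · exfalso
      rw [h] at hqn
      exact (Nat.not_even_iff_odd.2 hodd) (even_iff_two_dvd.2 hqn)
    · exact h
  refine ⟨q ^ e, b, Nat.one_lt_pow he hq.one_lt, ?_, ?_, hnb⟩
  · by_contra hb1
    have hb0 : b ≠ 0 := by
      intro h
      apply hb
      rw [h]
      exact dvd_zero _
    have hb2 : b = 1 := by omega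
    rw [hb2, mul_one] at hnb
    rcases Nat.even_or_odd e with h | h
    · obtain ⟨c, hc⟩ := h
      have h1 : n = (q ^ c) ^ 2 := by rw [hnb, hc, ← pow_mul]; congr 1; omega
      have h2 : 2 ^ 2 ^ m = (2 ^ 2 ^ (m - 1)) ^ 2 := by
        rw [← pow_mul]
        congr 1
        rw [← pow_succ]; congr 1; omega
      rw [h1, h2] at hn
      have h3 : 2 ^ 2 ^ (m - 1) < q ^ c := by
        by_contra h4
        have h5 : (q ^ c) ^ 2 ≤ (2 ^ 2 ^ (m - 1)) ^ 2 := Nat.pow_le_pow_left (by omega) 2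
        omega
      have h4 : (2 ^ 2 ^ (m - 1) + 1) ^ 2 ≤ (q ^ c) ^ 2 := Nat.pow_le_pow_left h3 2
      have h5 : 1 ≤ 2 ^ 2 ^ (m - 1) := Nat.one_le_two_pow
      nlinarith
    · have h1 : e ≠ 1 := by
        intro h2
        rw [h2, pow_one] at hnb
        exact hF (hnb ▸ hq)
      have h2 : (∑ i ∈ range e, q ^ i) * (q - 1) + 1 = q ^ e := by
        have h8 := geom_sum_mul_add (q - 1) e
        rw [Nat.sub_add_cancel hq.one_lt.le] at h8
        exact h8
      have h3 : (∑ i ∈ range e, q ^ i) * (q - 1) = 2 ^ 2 ^ m := by omega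
      have h4 : (∑ i ∈ range e, q ^ i) ∣ 2 ^ 2 ^ m := ⟨_, h3.symm⟩
      obtain ⟨j, _, hj⟩ := (Nat.dvd_prime_pow Nat.prime_two).1 h4
      have h5 : Odd (∑ i ∈ range e, q ^ i) := by
        have : ∀ f : ℕ, (Odd (∑ i ∈ range f, q ^ i) ↔ Odd f) := by
          intro f
          induction f with
          | zero => simp
          | succ f ih =>
            rw [Finset.sum_range_succ]
            have h6 : Odd (q ^ f) := hqodd.pow
            rw [Nat.odd_add, ih]
            rw [Nat.odd_add_one]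
            constructor
            · intro h7 h8
              exact (Nat.not_even_iff_odd.2 h6) (h7.1 h8)
            · intro h7
              constructor
              · intro h8; exact absurd h8 h7
              · intro h8; exact absurd h8 (Nat.not_even_iff_odd.2 h6)
        exact (this e).2 h
      have h6 : j = 0 := by
        by_contra h7
        rw [hj] at h5
        exact (Nat.not_even_iff_odd.2 h5) (Nat.even_pow.2 ⟨even_two, h7⟩)
      rw [h6, pow_zero] at hj
      have h7 : 1 + q ≤ ∑ i ∈ range e, q ^ i := by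
        obtain ⟨c, hc⟩ : ∃ c, e = c + 2 := ⟨e - 2, by omega⟩
        rw [hc, Finset.sum_range_succ', Finset.sum_range_succ']
        simp only [pow_zero, zero_add, pow_one]
        omega
      have := hq.pos
      omega
  · exact Nat.Coprime.pow_left e ((Nat.Prime.coprime_iff_not_dvd hq).2 hb)

end Pool.Agent.L0h40.GS
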