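import Mathlib
import Pool.Agent.L0h40.WT.InstA

/-!
All Jacobi sums of the characters of order dividing `2 ^ k`, up to roots of unity.
-/

namespace Pool.Agent.L0h40.GS

open Finset NumberField Polynomial Pool.Agent.L0h40.WT

variable {p : ℕ} [Fact p.Prime]

theorem sum_expand2 (e d : ℕ) : ∑ x : ZMod p, x ^ e * (1 - x) ^ d =
    ∑ j ∈ range (d + 1), (d.choose j : ZMod p) * (-1) ^ j * ∑ x : ZMod p, x ^ (e + j) := by
  have h1 : ∀ x : ZMod p, x ^ e * (1 - x) ^ d =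
      ∑ j ∈ range (d + 1), (d.choose j : ZMod p) * (-1) ^ j * x ^ (e + j) := by
    intro x
    have h2 : (1 - x) ^ d = (-x + 1) ^ d := by ring
    rw [h2, add_pow, Finset.mul_sum]
    refine Finset.sum_congr rfl fun j _ => ?_
    rw [one_pow, mul_one, neg_pow, pow_add]
    ring
  rw [Finset.sum_congr rfl (fun x _ => h1 x), Finset.sum_comm]
  refine Finset.sum_congr rfl fun j _ => ?_
  rw [Finset.mul_sum]

theorem sum_small2 (e d : ℕ) (he : e + d < p - 1) :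
    ∑ x : ZMod p, x ^ e * (1 - x) ^ d = 0 := by
  rw [sum_expand2]
  refine Finset.sum_eq_zero fun j hj => ?_
  rw [Finset.mem_range] at hj
  rw [FiniteField.sum_pow_lt_card_sub_one, mul_zero]
  rw [ZMod.card]
  omega

variable {k : ℕ} {K : Type} [Field K] [NumberField K] [IsCyclotomicExtension {2 ^ k} ℚ K]

/-- the index set -/
def WW (k a b : ℕ) : Finset (ZMod (2 ^ k))ˣ :=
  univ.filter fun v => 2 ^ k < ((a : ZMod (2 ^ k)) * (v⁻¹ : (ZMod (2 ^ k))ˣ)).val +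
    ((b : ZMod (2 ^ k)) * (v⁻¹ : (ZMod (2 ^ k))ˣ)).val

theorem mem_WW {a b : ℕ} {v : (ZMod (2 ^ k))ˣ} :
    v ∈ WW k a b ↔ 2 ^ k < ((a : ZMod (2 ^ k)) * (v⁻¹ : (ZMod (2 ^ k))ˣ)).val +
      ((b : ZMod (2 ^ k)) * (v⁻¹ : (ZMod (2 ^ k))ˣ)).val := by
  unfold WW
  rw [Finset.mem_filter]
  exact ⟨fun h => h.2, fun h => ⟨mem_univ _, h⟩⟩

theorem WW_comm (a b : ℕ) : WW k a b = WW k b a := by
  ext v
  rw [mem_WW, mem_WW, add_comm]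

theorem WW_deg {a b : ℕ} (h : (a : ZMod (2 ^ k)) = 0 ∨ (b : ZMod (2 ^ k)) = 0 ∨
    (a : ZMod (2 ^ k)) + b = 0) : WW k a b = ∅ := by
  have h0 : NeZero (2 ^ k) := ⟨by positivity⟩
  rw [Finset.eq_empty_iff_forall_notMem]
  intro v hv
  rw [mem_WW] at hv
  rcases h with h | h | h
  · rw [h, zero_mul, ZMod.val_zero] at hv
    have := ZMod.val_lt ((b : ZMod (2 ^ k)) * ((v⁻¹ : (ZMod (2 ^ k))ˣ) : ZMod (2 ^ k)))
    omega
  · rw [h, zero_mul, ZMod.val_zero] at hv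
    have := ZMod.val_lt ((a : ZMod (2 ^ k)) * ((v⁻¹ : (ZMod (2 ^ k))ˣ) : ZMod (2 ^ k)))
    omega
  · have h1 : (b : ZMod (2 ^ k)) * (v⁻¹ : (ZMod (2 ^ k))ˣ) =
        -((a : ZMod (2 ^ k)) * (v⁻¹ : (ZMod (2 ^ k))ˣ)) := by
      linear_combination h * ((v⁻¹ : (ZMod (2 ^ k))ˣ) : ZMod (2 ^ k))
    rw [h1, ZMod.neg_val] at hv
    split_ifs at hv with h2
    · rw [h2, ZMod.val_zero] at hv
      exact absurd hv (not_lt.2 (Nat.zero_le _))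
    · have := ZMod.val_lt ((a : ZMod (2 ^ k)) * ((v⁻¹ : (ZMod (2 ^ k))ˣ) : ZMod (2 ^ k)))
      omega

theorem neg_mem_WW {a b : ℕ} (ha : (a : ZMod (2 ^ k)) ≠ 0) (hb : (b : ZMod (2 ^ k)) ≠ 0)
    (hab : (a : ZMod (2 ^ k)) + b ≠ 0) (v : (ZMod (2 ^ k))ˣ) :
    -v ∈ WW k a b ↔ v ∉ WW k a b := by
  rw [mem_WW, mem_WW]
  have h0 : NeZero (2 ^ k) := ⟨by positivity⟩
  have h2 : ∀ c : ZMod (2 ^ k), c * ((-v)⁻¹ : (ZMod (2 ^ k))ˣ) =
      - (c * (v⁻¹ : (ZMod (2 ^ k))ˣ)) := by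
    intro c
    rw [inv_neg, Units.val_neg]; ring
  have h3 : ∀ c : ZMod (2 ^ k), c ≠ 0 → c * (v⁻¹ : (ZMod (2 ^ k))ˣ) ≠ 0 := by
    intro c hc h
    apply hc
    rwa [Units.mul_left_eq_zero] at h
  have h4 := h3 _ hab
  rw [add_mul] at h4
  rw [h2, h2, ZMod.neg_val, ZMod.neg_val, if_neg (h3 _ ha), if_neg (h3 _ hb)]
  obtain ⟨x, hx⟩ : ∃ x, x = ((a : ZMod (2 ^ k)) * (v⁻¹ : (ZMod (2 ^ k))ˣ)) := ⟨_, rfl⟩
  obtain ⟨y, hy⟩ : ∃ y, y = ((b : ZMod (2 ^ k)) * (v⁻¹ : (ZMod (2 ^ k))ˣ)) := ⟨_, rfl⟩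
  rw [← hx, ← hy] at h4 ⊢
  have h5 := ZMod.val_lt x
  have h6 := ZMod.val_lt y
  have h7 : x.val + y.val ≠ 2 ^ k := by
    intro h
    apply h4
    have := congrArg (Nat.cast : ℕ → ZMod (2 ^ k)) h
    rw [Nat.cast_add, ZMod.natCast_zmod_val, ZMod.natCast_zmod_val, ZMod.natCast_self] at this
    exact this
  omega

/-- the norm of the product over the index set -/
theorem norm_WW {a b : ℕ} (ha : (a : ZMod (2 ^ k)) ≠ 0) (hb : (b : ZMod (2 ^ k)) ≠ 0)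
    (hab : (a : ZMod (2 ^ k)) + b ≠ 0) {ζ : 𝓞 K} {θ : ZMod p}
    {lam : (ZMod (2 ^ k))ˣ → 𝓞 K} (F : Fam k p ζ θ lam) (σ : K →+* ℂ) :
    σ ((∏ u ∈ WW k a b, lam u : 𝓞 K) : K) * star (σ ((∏ u ∈ WW k a b, lam u : 𝓞 K) : K)) =
      p := by
  classical
  let τ : 𝓞 K →+* ℂ := σ.comp (algebraMap (𝓞 K) K)
  have e0 : ∀ x : 𝓞 K, σ (x : K) = τ x := fun x => rfl
  have h1 : star (τ (∏ u ∈ WW k a b, lam u)) = τ (∏ u ∈ WW k a b, lam (-u)) := by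
    rw [map_prod, map_prod, star_prod]
    refine Finset.prod_congr rfl fun u _ => ?_
    exact F.conj σ u
  rw [e0, h1, ← map_mul]
  have h2 : ∏ u ∈ WW k a b, lam (-u) = ∏ u ∈ univ \ WW k a b, lam u := by
    refine Finset.prod_bij (fun u _ => -u) ?_ ?_ ?_ ?_
    · intro u hu
      rw [Finset.mem_sdiff]
      refine ⟨mem_univ _, ?_⟩
      rw [neg_mem_WW ha hb hab]
      exact fun h => h hu
    · intro u _ v _ h
      exact neg_injective h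
    · intro u hu
      rw [Finset.mem_sdiff] at hu
      refine ⟨-u, ?_, neg_neg u⟩
      rw [neg_mem_WW ha hb hab]
      exact hu.2
    · intro u _
      rfl
  rw [h2, mul_comm, Finset.prod_sdiff (Finset.subset_univ _), F.prod]
  simp

theorem map_jacobi2 (χ ψ : MulChar (ZMod p) (𝓞 K)) (φ : 𝓞 K →+* ZMod p) (d e : ℕ)
    (h1 : ∀ x : ZMod p, φ (χ x) = x ^ d) (h2 : ∀ x : ZMod p, φ (ψ x) = x ^ e) :
    φ (jacobiSum χ ψ) = ∑ x : ZMod p, x ^ d * (1 - x) ^ e := by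
  unfold jacobiSum
  rw [map_sum]
  refine Finset.sum_congr rfl fun x _ => ?_
  rw [map_mul, h1, h2]

/-- absolute values -/
theorem norm_jacobi2 (χ ψ : MulChar (ZMod p) (𝓞 K)) (h1 : χ ≠ 1) (h1' : ψ ≠ 1)
    (h2 : χ * ψ ≠ 1) (σ : K →+* ℂ) :
    (σ (jacobiSum χ ψ : 𝓞 K)) * star (σ (jacobiSum χ ψ : 𝓞 K)) = p := by
  let τ : 𝓞 K →+* ℂ := σ.comp (algebraMap (𝓞 K) K)
  have hτ : Function.Injective τ := by
    intro x y hxy
    exact FaithfulSMul.algebraMap_injective (𝓞 K) K (σ.injective hxy)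
  let χ' := χ.ringHomComp τ
  let ψ' := ψ.ringHomComp τ
  have e1 : σ (jacobiSum χ ψ : 𝓞 K) = jacobiSum χ' ψ' := by
    change τ (jacobiSum χ ψ) = _
    rw [← jacobiSum_ringHomComp]
  have e2 : star (jacobiSum χ' ψ') = jacobiSum χ'⁻¹ ψ'⁻¹ := by
    unfold jacobiSum
    rw [star_sum]
    refine Finset.sum_congr rfl fun x _ => ?_
    rw [star_mul', MulChar.star_apply', MulChar.star_apply']
  have c1 : χ' ≠ 1 := (MulChar.ringHomComp_ne_one_iff hτ).2 h1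
  have c1' : ψ' ≠ 1 := (MulChar.ringHomComp_ne_one_iff hτ).2 h1'
  have c2 : χ' * ψ' ≠ 1 := by
    rw [← MulChar.ringHomComp_mul]
    exact (MulChar.ringHomComp_ne_one_iff hτ).2 h2
  rw [e1, e2, jacobiSum_mul_jacobiSum_inv _ c1 c1' c2, ZMod.card]
  rw [ringChar.eq_zero, ZMod.ringChar_zmod_n]
  exact (Fact.out : p.Prime).ne_zero.symm

/-- The normalised character: its reductions are powers. -/
structure Cha (k p f : ℕ) [Fact p.Prime] {K : Type} [Field K] [NumberField K]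
    (ζ : 𝓞 K) (θ : ZMod p) (χ : MulChar (ZMod p) (𝓞 K)) : Prop where
  val : ∀ x : ZMod p, x ≠ 0 → ∃ i : ℕ, χ x = ζ ^ i
  red : ∀ (φ : 𝓞 K →+* ZMod p) (u : ℕ), 0 < u → φ ζ = θ ^ u → ∀ x : ZMod p,
    φ (χ x) = x ^ ((2 ^ k - 1) * f * u)

theorem exists_Cha (hk : 1 ≤ k) {ζ : 𝓞 K} (hζ : IsPrimitiveRoot ζ (2 ^ k)) {f : ℕ}
    (hpf : p - 1 = 2 ^ k * f) (hf : 0 < f) {θ : ZMod p} (hθ : θ ^ 2 ^ (k - 1) = -1) :
    ∃ χ : MulChar (ZMod p) (𝓞 K), Cha k p f ζ θ χ := by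
  have h2 : 2 ≤ 2 ^ k := by
    have : 2 ^ 1 ≤ 2 ^ k := Nat.pow_le_pow_right (by norm_num) hk
    simpa using this
  obtain ⟨χ, h1, h2⟩ := exists_char (p := p) hk hζ hpf hf hθ (2 ^ k - 1) (by omega)
  exact ⟨χ, h1, h2⟩

theorem Cha.pow {f : ℕ} {ζ : 𝓞 K} {θ : ZMod p} {χ : MulChar (ZMod p) (𝓞 K)} (hk : 1 ≤ k)
    (C : Cha k p f ζ θ χ) (hpf : p - 1 = 2 ^ k * f) (hf : 0 < f) {a : ℕ}
    (φ : 𝓞 K →+* ZMod p) (u : (ZMod (2 ^ k))ˣ) (hφ : φ ζ = θ ^ (u : ZMod (2 ^ k)).val)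
    (x : ZMod p) : φ ((χ ^ a) x) =
      x ^ (f * (2 ^ k - ((a : ZMod (2 ^ k)) * (u : ZMod (2 ^ k))).val)) := by
  have h0 : NeZero (2 ^ k) := ⟨by positivity⟩
  have h3 := ZMod.val_lt ((a : ZMod (2 ^ k)) * (u : ZMod (2 ^ k)))
  have h4 : 1 < 2 ^ k := Nat.one_lt_two_pow (by omega)
  by_cases hx : x = 0
  · rw [hx, MulChar.map_zero, map_zero, zero_pow]
    have : 0 < f * (2 ^ k - ((a : ZMod (2 ^ k)) * (u : ZMod (2 ^ k))).val) :=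
      Nat.mul_pos hf (by omega)
    omega
  · have h1 := val_odd hk u
    have h5 : (χ ^ a) x = (χ x) ^ a := by
      have := MulChar.pow_apply_coe χ a (Units.mk0 x hx)
      simpa using this
    have h5' := C.red φ _ h1.pos hφ x
    rw [h5, map_pow, h5', ← pow_mul]
    rcases Nat.eq_zero_or_pos a with ha | ha
    · rw [ha]
      simp only [mul_zero, pow_zero, Nat.cast_zero, zero_mul, ZMod.val_zero, Nat.sub_zero]
      rw [mul_comm f, ← hpf]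
      exact (ZMod.pow_card_sub_one_eq_one hx).symm
    · have h2 : (2 ^ k - 1) * f * (u : ZMod (2 ^ k)).val * a =
        f * ((2 ^ k - 1) * (u : ZMod (2 ^ k)).val * a) := by ring
      rw [h2]
      apply pow_congr hpf _ (by omega) hf
      · rw [← ZMod.natCast_eq_natCast_iff]
        rw [Nat.cast_mul, Nat.cast_mul, Nat.cast_sub (by omega), Nat.cast_sub h3.le,
          ZMod.natCast_zmod_val, ZMod.natCast_zmod_val, ZMod.natCast_self]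
        push_cast
        ring
      · apply Nat.mul_pos (Nat.mul_pos (by omega) h1.pos) ha

theorem Cha.phi {f : ℕ} {ζ : 𝓞 K} {θ : ZMod p} {χ : MulChar (ZMod p) (𝓞 K)} (hk : 1 ≤ k)
    (C : Cha k p f ζ θ χ) (hpf : p - 1 = 2 ^ k * f) (hf : 0 < f) {a : ℕ}
    (ha : a < 2 ^ k) (φ : 𝓞 K →+* ZMod p) (hφ : φ ζ = θ) (x : ZMod p) :
    φ ((χ ^ a) x) = x ^ (f * (2 ^ k - a)) := by
  have h0 : NeZero (2 ^ k) := ⟨by positivity⟩
  have hone : ((1 : (ZMod (2 ^ k))ˣ) : ZMod (2 ^ k)).val = 1 := by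
    have : Fact (1 < 2 ^ k) := ⟨Nat.one_lt_two_pow (by omega)⟩
    rw [Units.val_one, ZMod.val_one]
  rw [C.pow hk hpf hf φ 1 (by rw [hone, pow_one]; exact hφ) x, Units.val_one, mul_one,
    ZMod.val_natCast, Nat.mod_eq_of_lt ha]

theorem Cha.pow_N {f : ℕ} {ζ : 𝓞 K} (hζ : IsPrimitiveRoot ζ (2 ^ k)) {θ : ZMod p}
    {χ : MulChar (ZMod p) (𝓞 K)}
    (C : Cha k p f ζ θ χ) : χ ^ (2 ^ k) = 1 := by
  ext x
  rw [MulChar.pow_apply_coe]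
  obtain ⟨j, hj⟩ := C.val (x : ZMod p) x.ne_zero
  rw [hj, ← pow_mul, mul_comm, pow_mul, hζ.pow_eq_one]
  simp

theorem Cha.mod {f : ℕ} {ζ : 𝓞 K} (hζ : IsPrimitiveRoot ζ (2 ^ k)) {θ : ZMod p}
    {χ : MulChar (ZMod p) (𝓞 K)}
    (C : Cha k p f ζ θ χ) (a : ℕ) : χ ^ a = χ ^ (a % 2 ^ k) := by
  conv_lhs => rw [← Nat.div_add_mod a (2 ^ k), pow_add, pow_mul, C.pow_N hζ, one_pow, one_mul]

/-- the order of the character -/
theorem Cha.ne_one {f : ℕ} {ζ : 𝓞 K} (hζ : IsPrimitiveRoot ζ (2 ^ k)) {θ : ZMod p}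
    {χ : MulChar (ZMod p) (𝓞 K)} (hk : 1 ≤ k)
    (C : Cha k p f ζ θ χ) (hpf : p - 1 = 2 ^ k * f) (hf : 0 < f)
    (hθ : θ ^ 2 ^ (k - 1) = -1) {a : ℕ} (ha : (a : ZMod (2 ^ k)) ≠ 0) :
    χ ^ a ≠ 1 := by
  intro h
  have h0 : NeZero (2 ^ k) := ⟨by positivity⟩
  obtain ⟨φ, hφ⟩ := exists_hom hk hζ θ hθ
  have h1 : a % 2 ^ k ≠ 0 := by
    intro h2
    apply ha
    rw [ZMod.natCast_eq_zero_iff]
    exact Nat.dvd_of_mod_eq_zero h2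
  rw [C.mod hζ a] at h
  have h2 : a % 2 ^ k < 2 ^ k := Nat.mod_lt _ (by positivity)
  obtain ⟨g, hg⟩ := IsCyclic.exists_generator (α := (ZMod p)ˣ)
  have ho : orderOf g = p - 1 := by
    rw [orderOf_eq_card_of_forall_mem_zpowers hg, Nat.card_eq_fintype_card, ZMod.card_units]
  have h3 : (χ ^ (a % 2 ^ k)) (g : ZMod p) = 1 := by rw [h]; simp
  have h4 := congrArg φ h3
  rw [C.phi hk hpf hf h2 φ hφ, map_one] at h4
  have h5 : g ^ (f * (2 ^ k - a % 2 ^ k)) = 1 := by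
    ext
    rw [Units.val_pow_eq_pow_val, h4, Units.val_one]
  have h6 := orderOf_dvd_of_pow_eq_one h5
  rw [ho, hpf] at h6
  have h7 := Nat.le_of_dvd (Nat.mul_pos hf (by omega)) h6
  have h8 : f * (2 ^ k - a % 2 ^ k) < f * 2 ^ k := Nat.mul_lt_mul_of_pos_left (by omega) hf
  rw [mul_comm f (2 ^ k)] at h8
  omega

/-- Jacobi sums up to roots of unity -/
theorem jac_unit (hk : 1 ≤ k) {ζ : 𝓞 K} (hζ : IsPrimitiveRoot ζ (2 ^ k)) {f : ℕ}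
    (hpf : p - 1 = 2 ^ k * f) (hf : 0 < f) (hp : 2 < p) {θ : ZMod p} (hθ : θ ^ 2 ^ (k - 1) = -1)
    {lam : (ZMod (2 ^ k))ˣ → 𝓞 K} (F : Fam k p ζ θ lam)
    {χ : MulChar (ZMod p) (𝓞 K)} (C : Cha k p f ζ θ χ) {a b : ℕ}
    (ha : (a : ZMod (2 ^ k)) ≠ 0) (hb : (b : ZMod (2 ^ k)) ≠ 0)
    (hab : (a : ZMod (2 ^ k)) + b ≠ 0) :
    ∃ i : ℕ, jacobiSum (χ ^ a) (χ ^ b) = (∏ v ∈ WW k a b, lam v) * ζ ^ i := by
  classical
  have h0 : NeZero (2 ^ k) := ⟨by positivity⟩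
  set J : 𝓞 K := jacobiSum (χ ^ a) (χ ^ b) with hJ
  have hdvd : ∀ v ∈ WW k a b, lam v ∣ J := by
    intro v hv
    rw [mem_WW] at hv
    obtain ⟨g, hg⟩ := exists_phi hk hζ hθ v⁻¹
    obtain ⟨R, hR1, hR2⟩ := F.red v
    apply dvd_of_ker hζ g (lam v) R hR1 (lam_dvd_p F v) (by rw [hR2, hg]) J
    rw [hJ, map_jacobi2 (χ ^ a) (χ ^ b) g _ _ (C.pow hk hpf hf g v⁻¹ hg)
      (C.pow hk hpf hf g v⁻¹ hg)]
    apply sum_small2
    rw [← Nat.mul_add, hpf, mul_comm (2 ^ k) f]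
    apply Nat.mul_lt_mul_of_pos_left _ hf
    have h1 := ZMod.val_lt ((a : ZMod (2 ^ k)) * ((v⁻¹ : (ZMod (2 ^ k))ˣ) : ZMod (2 ^ k)))
    have h2 := ZMod.val_lt ((b : ZMod (2 ^ k)) * ((v⁻¹ : (ZMod (2 ^ k))ˣ) : ZMod (2 ^ k)))
    omega
  have hΛ : ∏ v ∈ WW k a b, lam v ∣ J := by
    apply Finset.prod_dvd_of_coprime _ hdvd
    intro u _ v _ huv
    exact coprime hk hθ hp F huv
  obtain ⟨κ, hκ⟩ := hΛ
  have n1 := C.ne_one hζ hk hpf hf hθ ha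
  have n2 := C.ne_one hζ hk hpf hf hθ hb
  have n3 : χ ^ a * χ ^ b ≠ 1 := by
    rw [← pow_add]
    apply C.ne_one hζ hk hpf hf hθ
    rw [Nat.cast_add]
    exact hab
  have hκ1 : ∀ σ : K →+* ℂ, ‖σ (κ : K)‖ = 1 := by
    intro σ
    have h1 := norm_jacobi2 (χ ^ a) (χ ^ b) n1 n2 n3 σ
    have h2 := norm_WW ha hb hab F σ
    rw [← hJ, hκ] at h1
    have h3 : (((∏ v ∈ WW k a b, lam v) * κ : 𝓞 K) : K) =
      ((∏ v ∈ WW k a b, lam v : 𝓞 K) : K) * (κ : K) := by simp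
    rw [h3, map_mul, star_mul'] at h1
    have hp0 : (p : ℂ) ≠ 0 := by
      have := (Fact.out : p.Prime).ne_zero
      exact_mod_cast this
    have h4 : σ (κ : K) * star (σ (κ : K)) = 1 := by
      apply mul_left_cancel₀ hp0
      rw [mul_one]
      nth_rewrite 1 [← h2]
      rw [← h1]
      ring
    have h5 : ((‖σ (κ : K)‖ ^ 2 : ℝ) : ℂ) = 1 := by
      rw [← h4, Complex.star_def, Complex.mul_conj, Complex.normSq_eq_norm_sq]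
    have h6 : ‖σ (κ : K)‖ ^ 2 = 1 := by exact_mod_cast h5
    have h7 : 0 ≤ ‖σ (κ : K)‖ := norm_nonneg _
    nlinarith
  obtain ⟨i, hi⟩ := root_of_unity hk hζ κ hκ1
  exact ⟨i, by rw [hκ, hi]⟩

end Pool.Agent.L0h40.GS
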