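import Mathlib
import Pool.Agent.L0h40.GS.Jac

/-!
The Jacobi sums of the characters of order dividing `2 ^ k` of a Fermat prime.
-/

namespace Pool.Agent.L0h40.GS

open Finset NumberField Polynomial Pool.Agent.L0h40.WT

/-- unit vectors with a long sum are equal -/
theorem unit_vectors {ι : Type} (s : Finset ι) (w : ι → ℂ) (z : ℂ) (hz : ‖z‖ = 1)
    (hw : ∀ a ∈ s, ‖w a‖ = 1) (hs : ∑ a ∈ s, w a = s.card * z) : ∀ a ∈ s, w a = z := by
  have h1 : ∀ a ∈ s, ‖w a - z‖ ^ 2 = 2 - 2 * (w a * star z).re := by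
    intro a ha
    have h2 := Complex.normSq_sub (w a) z
    rw [← Complex.normSq_eq_norm_sq, h2, Complex.normSq_eq_norm_sq, Complex.normSq_eq_norm_sq,
      hw a ha, hz, Complex.star_def]
    ring
  have h2 : ∑ a ∈ s, ‖w a - z‖ ^ 2 = 0 := by
    rw [Finset.sum_congr rfl h1, Finset.sum_sub_distrib, ← Finset.mul_sum, ← Complex.re_sum,
      ← Finset.sum_mul, hs]
    have h3 : (s.card : ℂ) * z * star z = ((s.card : ℝ) : ℂ) := by
      rw [mul_assoc, Complex.star_def, Complex.mul_conj, Complex.normSq_eq_norm_sq, hz]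
      push_cast
      ring
    rw [h3, Complex.ofReal_re]
    simp
    ring
  intro a ha
  have h3 := (Finset.sum_eq_zero_iff_of_nonneg (fun i _ => by positivity)).1 h2 a ha
  have h4 : ‖w a - z‖ = 0 := by
    rcases sq_eq_zero_iff.1 h3 with h
    exact h
  rw [norm_eq_zero, sub_eq_zero] at h4
  exact h4

variable {p : ℕ} [Fact p.Prime]
variable {k : ℕ} {K : Type} [Field K] [NumberField K] [IsCyclotomicExtension {2 ^ k} ℚ K]

open scoped Classical in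
theorem geom {ζ : 𝓞 K} (hζ : IsPrimitiveRoot ζ (2 ^ k)) (i : ℕ) :
    ∑ a ∈ range (2 ^ k), ζ ^ (i * a) = if ζ ^ i = 1 then (2 ^ k : 𝓞 K) else 0 := by
  split_ifs with h
  · rw [Finset.sum_congr rfl (fun a _ => by rw [pow_mul, h, one_pow])]
    simp
  · have h1 : (∑ a ∈ range (2 ^ k), (ζ ^ i) ^ a) * (ζ ^ i - 1) = (ζ ^ i) ^ 2 ^ k - 1 :=
      geom_sum_mul _ _
    rw [← pow_mul, mul_comm i, pow_mul, hζ.pow_eq_one, one_pow, sub_self] at h1
    rcases mul_eq_zero.1 h1 with h2 | h2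
    · rw [← h2]
      exact Finset.sum_congr rfl fun a _ => by rw [pow_mul]
    · exact absurd (sub_eq_zero.1 h2) h

/-- A function on `ZMod (2 ^ k)` whose values are roots of unity and whose Fourier transform is
integral is a character. -/
theorem kron {ζ : 𝓞 K} (hζ : IsPrimitiveRoot ζ (2 ^ k)) (e : ℕ → ℕ) (he : ζ ^ e 0 = 1)
    (hint : ∀ l : ℕ, (2 ^ k : 𝓞 K) ∣ ∑ a ∈ range (2 ^ k), ζ ^ (l * a) * ζ ^ e a) :
    ∃ l : ℕ, ∀ a < 2 ^ k, ζ ^ (l * a) * ζ ^ e a = 1 := by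
  classical
  choose z hz using hint
  have hN : (2 ^ k : 𝓞 K) ≠ 0 := pow_ne_zero _ two_ne_zero
  -- some `z l` is nonzero
  have h1 : ∑ l ∈ range (2 ^ k), z l = 1 := by
    apply mul_left_cancel₀ hN
    rw [Finset.mul_sum, Finset.sum_congr rfl (fun l _ => (hz l).symm), Finset.sum_comm]
    rw [Finset.sum_eq_single 0]
    · simp [he]
    · intro a ha ha0
      rw [← Finset.sum_mul]
      have h2 := geom hζ a
      have h3 : ¬ ζ ^ a = 1 := by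
        intro h
        have h4 := (hζ.pow_eq_one_iff_dvd a).1 h
        have h5 := Nat.le_of_dvd (by omega) h4
        rw [Finset.mem_range] at ha
        omega
      rw [if_neg h3] at h2
      rw [Finset.sum_congr rfl (fun l _ => by rw [mul_comm l a]), h2, zero_mul]
    · intro h
      exact absurd (Finset.mem_range.2 (by positivity)) h
  obtain ⟨l, -, hl⟩ : ∃ l ∈ range (2 ^ k), z l ≠ 0 := by
    apply Finset.exists_ne_zero_of_sum_ne_zero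
    rw [h1]
    exact one_ne_zero
  -- the absolute values
  have hn : ∀ (σ : K →+* ℂ) (n : ℕ), ‖σ ((ζ ^ n : 𝓞 K) : K)‖ = 1 := by
    intro σ n
    let τ : 𝓞 K →+* ℂ := σ.comp (algebraMap (𝓞 K) K)
    have e0 : ∀ x : 𝓞 K, σ (x : K) = τ x := fun x => rfl
    rw [e0]
    apply Complex.norm_eq_one_of_pow_eq_one (n := 2 ^ k) _ (by positivity)
    rw [← map_pow, ← pow_mul, mul_comm, pow_mul, hζ.pow_eq_one, one_pow, map_one]
  have hsum : ∀ σ : K →+* ℂ, ∑ a ∈ range (2 ^ k), σ ((ζ ^ (l * a) * ζ ^ e a : 𝓞 K) : K) =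
      (range (2 ^ k)).card * σ (z l : K) := by
    intro σ
    let τ : 𝓞 K →+* ℂ := σ.comp (algebraMap (𝓞 K) K)
    have e0 : ∀ x : 𝓞 K, σ (x : K) = τ x := fun x => rfl
    rw [Finset.sum_congr rfl (fun a _ => e0 _), ← map_sum, hz l, map_mul, e0, map_pow,
      map_ofNat, Finset.card_range]
    push_cast
    rfl
  have hle : ∀ σ : K →+* ℂ, ‖σ (z l : K)‖ ≤ 1 := by
    intro σ
    have h2 := congrArg norm (hsum σ)
    rw [norm_mul, Finset.card_range] at h2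
    have h3 : ‖∑ a ∈ range (2 ^ k), σ ((ζ ^ (l * a) * ζ ^ e a : 𝓞 K) : K)‖ ≤ 2 ^ k := by
      refine (norm_sum_le _ _).trans ?_
      have h4 : ∀ a ∈ range (2 ^ k), ‖σ ((ζ ^ (l * a) * ζ ^ e a : 𝓞 K) : K)‖ = 1 := by
        intro a _
        rw [← pow_add]
        exact hn σ _
      rw [Finset.sum_congr rfl h4]
      simp
    rw [h2] at h3
    have h4 : ‖((2 ^ k : ℕ) : ℂ)‖ = 2 ^ k := by simp
    rw [h4] at h3
    have h5 : (0 : ℝ) < 2 ^ k := by positivity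
    nlinarith
  have hK : (z l : K) ≠ 0 := by
    intro h
    apply hl
    exact RingOfIntegers.ext h
  obtain ⟨n, hn0, hzn⟩ := Embeddings.pow_eq_one_of_norm_le_one (K := K) (A := ℂ) hK
    (z l).isIntegral_coe hle
  have hone : ∀ σ : K →+* ℂ, ‖σ (z l : K)‖ = 1 := by
    intro σ
    apply Complex.norm_eq_one_of_pow_eq_one (n := n) _ (by omega)
    rw [← map_pow, hzn, map_one]
  obtain ⟨σ⟩ : Nonempty (K →+* ℂ) := inferInstance
  have hu := unit_vectors (range (2 ^ k)) (fun a => σ ((ζ ^ (l * a) * ζ ^ e a : 𝓞 K) : K))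
    (σ (z l : K)) (hone σ) (fun a _ => by
      change ‖σ ((ζ ^ (l * a) * ζ ^ e a : 𝓞 K) : K)‖ = 1
      rw [← pow_add]
      exact hn σ _) (hsum σ)
  refine ⟨l, fun a ha => ?_⟩
  have h2 := hu a (Finset.mem_range.2 ha)
  have h3 := hu 0 (Finset.mem_range.2 (by positivity))
  simp only [mul_zero, pow_zero, he, one_mul] at h3
  rw [← h3] at h2
  have h4 := σ.injective h2
  exact RingOfIntegers.ext h4

/-- the product -/
noncomputable def PP (k : ℕ) {K : Type} [Field K] [NumberField K] (ρ ζ : 𝓞 K) (a b : ℕ) : 𝓞 K :=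
  ∏ v ∈ WW k a b, (1 - ρ * ζ ^ ((-v : (ZMod (2 ^ k))ˣ) : ZMod (2 ^ k)).val)

theorem PP_comm (ρ ζ : 𝓞 K) (a b : ℕ) : PP k ρ ζ a b = PP k ρ ζ b a := by
  unfold PP
  rw [WW_comm]

theorem PP_deg (ρ ζ : 𝓞 K) {a b : ℕ} (h : (a : ZMod (2 ^ k)) = 0 ∨ (b : ZMod (2 ^ k)) = 0 ∨
    (a : ZMod (2 ^ k)) + b = 0) : PP k ρ ζ a b = 1 := by
  unfold PP
  rw [WW_deg h, Finset.prod_empty]

theorem PP_congr (ρ ζ : 𝓞 K) (a b : ℕ) : ρ ∣ PP k ρ ζ a b - 1 := by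
  classical
  unfold PP
  generalize WW k a b = S
  induction S using Finset.induction_on with
  | empty => simp
  | insert u V hu ih =>
    rw [Finset.prod_insert hu]
    have e1 : (1 - ρ * ζ ^ ((-u : (ZMod (2 ^ k))ˣ) : ZMod (2 ^ k)).val) *
        ∏ v ∈ V, (1 - ρ * ζ ^ ((-v : (ZMod (2 ^ k))ˣ) : ZMod (2 ^ k)).val) - 1 =
        (∏ v ∈ V, (1 - ρ * ζ ^ ((-v : (ZMod (2 ^ k))ˣ) : ZMod (2 ^ k)).val) - 1) -
        ρ * (ζ ^ ((-u : (ZMod (2 ^ k))ˣ) : ZMod (2 ^ k)).val *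
        ∏ v ∈ V, (1 - ρ * ζ ^ ((-v : (ZMod (2 ^ k))ˣ) : ZMod (2 ^ k)).val)) := by ring
    rw [e1]
    exact dvd_sub ih (dvd_mul_right _ _)

theorem zeta_neg (hk : 1 ≤ k) {ζ : 𝓞 K} (hζ : IsPrimitiveRoot ζ (2 ^ k)) (v : (ZMod (2 ^ k))ˣ) :
    ζ ^ (v : ZMod (2 ^ k)).val * ζ ^ ((-v : (ZMod (2 ^ k))ˣ) : ZMod (2 ^ k)).val = 1 := by
  have h0 : NeZero (2 ^ k) := ⟨by positivity⟩
  have h4 : (v : ZMod (2 ^ k)).val + ((-v : (ZMod (2 ^ k))ˣ) : ZMod (2 ^ k)).val = 2 ^ k := by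
    rw [Units.val_neg, ZMod.neg_val, if_neg]
    · have := ZMod.val_lt (v : ZMod (2 ^ k))
      omega
    · intro h
      have h5 := val_odd hk v
      rw [h, ZMod.val_zero] at h5
      exact absurd h5 (by decide)
  rw [← pow_add, h4, hζ.pow_eq_one]

/-- the level data -/
structure Dat (m k p : ℕ) : Prop where
  hk : 2 ≤ k
  hkm : k ≤ m + 1
  hm : 2 ≤ m
  hp : p = 2 ^ 2 ^ m + 1

theorem Dat.lt {m k p : ℕ} (D : Dat m k p) : k < 2 ^ m := by
  have h1 := D.hkm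
  have h2 := two_pow_ge' D.hm
  omega
where
  two_pow_ge' {m : ℕ} (hm : 2 ≤ m) : m + 2 ≤ 2 ^ m := by
    obtain ⟨c, rfl⟩ : ∃ c, m = c + 2 := ⟨m - 2, by omega⟩
    clear hm
    induction c with
    | zero => norm_num
    | succ c ih =>
      have : 2 ^ (c + 1 + 2) = 2 * 2 ^ (c + 2) := by rw [← pow_succ']
      rw [this]; omega

theorem Dat.hpf {m k p : ℕ} (D : Dat m k p) : p - 1 = 2 ^ k * 2 ^ (2 ^ m - k) := by
  have h1 := D.lt
  rw [D.hp, Nat.add_sub_cancel, ← pow_add]; congr 1; omega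

theorem Dat.two_lt {m k p : ℕ} (D : Dat m k p) : 2 < p := by
  have h1 := D.hpf
  have h2 : 2 ^ 2 ≤ 2 ^ k := Nat.pow_le_pow_right (by norm_num) D.hk
  have h3 : 1 ≤ 2 ^ (2 ^ m - k) := Nat.one_le_two_pow
  have h4 : 4 * 1 ≤ 2 ^ k * 2 ^ (2 ^ m - k) := Nat.mul_le_mul (by simpa using h2) h3
  omega

theorem Dat.theta {m k p : ℕ} (D : Dat m k p) :
    ((2 : ZMod p) ^ 2 ^ (m + 1 - k)) ^ 2 ^ (k - 1) = -1 := by
  have hpow : 2 ^ (m + 1 - k) * 2 ^ (k - 1) = 2 ^ m := by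
    rw [← pow_add]; congr 1
    have := D.hk
    have := D.hkm
    omega
  rw [← pow_mul, hpow]
  have h4 : ((p : ℕ) : ZMod p) = 0 := ZMod.natCast_self p
  have h6 : ((2 ^ 2 ^ m + 1 : ℕ) : ZMod p) = 0 := D.hp ▸ h4
  have h5 : (2 : ZMod p) ^ 2 ^ m + 1 = 0 := by
    rw [← h6]
    push_cast
    ring
  linear_combination h5

/-- the value at `-1` -/
theorem chi_neg_one {m : ℕ} (D : Dat m k p) {ζ : 𝓞 K} (hζ : IsPrimitiveRoot ζ (2 ^ k))
    {χ : MulChar (ZMod p) (𝓞 K)}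
    (C : Cha k p (2 ^ (2 ^ m - k)) ζ ((2 : ZMod p) ^ 2 ^ (m + 1 - k)) χ) : χ (-1) = 1 := by
  have hk : 1 ≤ k := by have := D.hk; omega
  obtain ⟨φ, hφ⟩ := exists_hom hk hζ _ D.theta
  have h1 := C.red φ 1 one_pos (by rw [pow_one]; exact hφ) (-1)
  have h2 : Even ((2 ^ k - 1) * 2 ^ (2 ^ m - k) * 1) := by
    have h3 := D.lt
    have h4 : Even (2 ^ (2 ^ m - k)) := Nat.even_pow.2 ⟨even_two, by omega⟩
    rw [mul_one]
    exact h4.mul_left _
  rw [h2.neg_one_pow] at h1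
  obtain ⟨i, hi⟩ := C.val (-1) (by simp)
  rw [hi, map_pow, hφ] at h1
  have h5 : (-1 : ZMod p) ≠ 1 := by
    have : Fact (2 < p) := ⟨D.two_lt⟩
    exact ZMod.neg_one_ne_one
  have h6 := theta_prim hk h5 D.theta
  rw [hi]
  exact (hζ.pow_eq_one_iff_dvd _).2 ((h6.pow_eq_one_iff_dvd _).1 h1)

/-- Jacobi sums up to roots of unity, normalised -/
theorem jac_eps {m : ℕ} (D : Dat m k p) {ζ : 𝓞 K} (hζ : IsPrimitiveRoot ζ (2 ^ k))
    {χ : MulChar (ZMod p) (𝓞 K)}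
    (C : Cha k p (2 ^ (2 ^ m - k)) ζ ((2 : ZMod p) ^ 2 ^ (m + 1 - k)) χ) {a b : ℕ}
    (hb : (b : ZMod (2 ^ k)) ≠ 0) :
    ∃ i : ℕ, jacobiSum (χ ^ a) (χ ^ b) = - (ζ ^ i * PP k (2 ^ 2 ^ (m + 1 - k)) ζ a b) := by
  classical
  have hk : 1 ≤ k := by have := D.hk; omega
  have n2 := C.ne_one hζ hk D.hpf (by positivity) D.theta hb
  by_cases ha : (a : ZMod (2 ^ k)) = 0
  · refine ⟨0, ?_⟩
    rw [PP_deg _ _ (Or.inl ha)]
    have h1 : χ ^ a = 1 := by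
      rw [C.mod hζ, Nat.mod_eq_zero_of_dvd ((ZMod.natCast_eq_zero_iff _ _).1 ha), pow_zero]
    rw [h1, jacobiSum_one_nontrivial n2]
    simp
  by_cases hab : (a : ZMod (2 ^ k)) + b = 0
  · refine ⟨0, ?_⟩
    rw [PP_deg _ _ (Or.inr (Or.inr hab))]
    have h1 : χ ^ a * χ ^ b = 1 := by
      rw [← pow_add, C.mod hζ, Nat.mod_eq_zero_of_dvd, pow_zero]
      rw [← ZMod.natCast_eq_zero_iff]
      push_cast
      exact hab
    have h2 : χ ^ b = (χ ^ a)⁻¹ := by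
      rw [eq_comm, inv_eq_iff_mul_eq_one]
      exact h1
    have n1 := C.ne_one hζ hk D.hpf (by positivity) D.theta ha
    rw [h2, jacobiSum_nontrivial_inv n1]
    have h3 : (χ ^ a) (-1) = 1 := by
      have h4 := MulChar.pow_apply_coe χ a (-1 : (ZMod p)ˣ)
      rw [Units.val_neg, Units.val_one] at h4
      rw [h4, chi_neg_one D hζ C, one_pow]
    rw [h3]
    simp
  · obtain ⟨i, hi⟩ := jac_unit hk hζ D.hpf (by positivity) D.two_lt D.theta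
      (famA D.hk D.hkm D.hp hζ) C ha hb hab
    have h1 : ∏ v ∈ WW k a b, ((2 : 𝓞 K) ^ 2 ^ (m + 1 - k) - ζ ^ (v : ZMod (2 ^ k)).val) =
        (∏ v ∈ WW k a b, (ζ ^ 2 ^ (k - 1) * ζ ^ (v : ZMod (2 ^ k)).val)) *
          PP k (2 ^ 2 ^ (m + 1 - k)) ζ a b := by
      unfold PP
      rw [← Finset.prod_mul_distrib]
      refine Finset.prod_congr rfl fun v _ => ?_
      have h2 := zeta_neg hk hζ v
      have h3 := zeta_half' hk hζ
      rw [h3]
      linear_combination (-(2 : 𝓞 K) ^ 2 ^ (m + 1 - k)) * h2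
    obtain ⟨j, hj⟩ : ∃ j : ℕ, ∏ v ∈ WW k a b, (ζ ^ 2 ^ (k - 1) * ζ ^ (v : ZMod (2 ^ k)).val) =
        ζ ^ j := by
      refine ⟨∑ v ∈ WW k a b, (2 ^ (k - 1) + (v : ZMod (2 ^ k)).val), ?_⟩
      rw [← Finset.prod_pow_eq_pow_sum]
      refine Finset.prod_congr rfl fun v _ => ?_
      rw [pow_add]
    refine ⟨2 ^ (k - 1) + j + i, ?_⟩
    rw [hi, h1, hj, pow_add, pow_add, zeta_half' hk hζ]
    ring
where
  zeta_half' {k : ℕ} {K : Type} [Field K] [NumberField K]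
      (hk : 1 ≤ k) {ζ : 𝓞 K} (hζ : IsPrimitiveRoot ζ (2 ^ k)) :
      ζ ^ 2 ^ (k - 1) = -1 := by
    have h2 : (ζ ^ 2 ^ (k - 1)) ^ 2 = 1 := by
      rw [← pow_mul, ← pow_succ]
      have : k - 1 + 1 = k := by omega
      rw [this, hζ.pow_eq_one]
    have h3 : ζ ^ 2 ^ (k - 1) ≠ 1 := by
      intro h
      have := (hζ.pow_eq_one_iff_dvd _).1 h
      have h5 := Nat.le_of_dvd (by positivity) this
      have h6 : 2 ^ (k - 1) < 2 ^ k := Nat.pow_lt_pow_right (by norm_num) (by omega)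
      omega
    rcases sq_eq_one_iff.1 h2 with h | h
    · exact absurd h h3
    · exact h

/-- integrality -/
theorem jac_int {m : ℕ} {ζ : 𝓞 K} (hζ : IsPrimitiveRoot ζ (2 ^ k))
    {χ : MulChar (ZMod p) (𝓞 K)}
    (C : Cha k p (2 ^ (2 ^ m - k)) ζ ((2 : ZMod p) ^ 2 ^ (m + 1 - k)) χ) (b l : ℕ) :
    (2 ^ k : 𝓞 K) ∣ ∑ a ∈ range (2 ^ k), ζ ^ (l * a) * jacobiSum (χ ^ a) (χ ^ b) := by
  unfold jacobiSum
  rw [Finset.sum_congr rfl (fun a _ => Finset.mul_sum _ _ _), Finset.sum_comm]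
  refine Finset.dvd_sum fun x _ => ?_
  by_cases hx : x = 0
  · rw [hx]
    simp only [MulChar.map_zero, zero_mul, mul_zero, Finset.sum_const_zero, dvd_zero]
  · obtain ⟨i, hi⟩ := C.val x hx
    have h1 : ∀ a ∈ range (2 ^ k), ζ ^ (l * a) * ((χ ^ a) x * (χ ^ b) (1 - x)) =
        ζ ^ ((l + i) * a) * (χ ^ b) (1 - x) := by
      intro a _
      have h2 := MulChar.pow_apply_coe χ a (Units.mk0 x hx)
      rw [Units.val_mk0] at h2
      rw [h2, hi, ← pow_mul, add_mul, pow_add]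
      ring
    rw [Finset.sum_congr rfl h1, ← Finset.sum_mul, geom hζ]
    split_ifs
    · exact dvd_mul_right _ _
    · rw [zero_mul]
      exact dvd_zero _

theorem PP_ne_zero {m : ℕ} (D : Dat m k p) {ζ : 𝓞 K} (hζ : IsPrimitiveRoot ζ (2 ^ k)) (a b : ℕ) :
    PP k (2 ^ 2 ^ (m + 1 - k)) ζ a b ≠ 0 := by
  have hk : 1 ≤ k := by have := D.hk; omega
  unfold PP
  rw [Finset.prod_ne_zero_iff]
  intro v _ h
  have F := famA (K := K) D.hk D.hkm D.hp hζ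
  have h1 := lam_dvd_p F v
  have h2 : (2 : 𝓞 K) ^ 2 ^ (m + 1 - k) - ζ ^ (v : ZMod (2 ^ k)).val = 0 := by
    have h3 := zeta_neg hk hζ v
    linear_combination (-ζ ^ (v : ZMod (2 ^ k)).val) * h - (2 : 𝓞 K) ^ 2 ^ (m + 1 - k) * h3
  simp only [h2] at h1
  have h4 := zero_dvd_iff.1 h1
  have h5 : p ≠ 0 := (Fact.out : p.Prime).ne_zero
  exact h5 (by exact_mod_cast h4)

/-- all Jacobi sums -/
theorem jacobi_exact {m : ℕ} (D : Dat m k p) (hkk : k ≤ 2 ^ (m + 1 - k)) {ζ : 𝓞 K}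
    (hζ : IsPrimitiveRoot ζ (2 ^ k))
    {χ : MulChar (ZMod p) (𝓞 K)}
    (C : Cha k p (2 ^ (2 ^ m - k)) ζ ((2 : ZMod p) ^ 2 ^ (m + 1 - k)) χ) {a b : ℕ}
    (ha : a < 2 ^ k) (hb0 : 0 < b) (hb : b < 2 ^ k) :
    jacobiSum (χ ^ a) (χ ^ b) = - PP k (2 ^ 2 ^ (m + 1 - k)) ζ a b := by
  classical
  have hk : 1 ≤ k := by have := D.hk; omega
  have h0 : NeZero (2 ^ k) := ⟨by positivity⟩
  have hcast : ∀ c : ℕ, 0 < c → c < 2 ^ k → (c : ZMod (2 ^ k)) ≠ 0 := by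
    intro c hc1 hc2 h
    rw [ZMod.natCast_eq_zero_iff] at h
    have := Nat.le_of_dvd hc1 h
    omega
  have key : ∀ b : ℕ, 0 < b → b < 2 ^ k → ∃ l : ℕ, ∀ a < 2 ^ k,
      jacobiSum (χ ^ a) (χ ^ b) * ζ ^ (l * a) = - PP k (2 ^ 2 ^ (m + 1 - k)) ζ a b := by
    intro b hb0 hb
    have h1 : ∀ a : ℕ, ∃ i : ℕ, jacobiSum (χ ^ a) (χ ^ b) =
        - (ζ ^ i * PP k (2 ^ 2 ^ (m + 1 - k)) ζ a b) := fun a =>
      jac_eps D hζ C (hcast b hb0 hb)
    choose e he using h1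
    have he0 : ζ ^ e 0 = 1 := by
      have h2 := he 0
      rw [PP_deg _ _ (Or.inl (by simp)), pow_zero, mul_one,
        jacobiSum_one_nontrivial (C.ne_one hζ hk D.hpf (by positivity) D.theta
          (hcast b hb0 hb))] at h2
      exact (neg_injective h2).symm
    have hdiv : (2 ^ k : 𝓞 K) ∣ 2 ^ 2 ^ (m + 1 - k) := pow_dvd_pow _ hkk
    obtain ⟨l, hl⟩ := kron hζ e he0 (by
      intro l
      have h2 := jac_int hζ C b l
      have h3 : ∑ a ∈ range (2 ^ k), ζ ^ (l * a) * ζ ^ e a =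
          -(∑ a ∈ range (2 ^ k), ζ ^ (l * a) * jacobiSum (χ ^ a) (χ ^ b)) -
          ∑ a ∈ range (2 ^ k), ζ ^ (l * a) * ζ ^ e a *
            (PP k (2 ^ 2 ^ (m + 1 - k)) ζ a b - 1) := by
        rw [← Finset.sum_neg_distrib, ← Finset.sum_sub_distrib]
        refine Finset.sum_congr rfl fun a _ => ?_
        rw [he a]; ring
      rw [h3]
      refine dvd_sub (dvd_neg.2 h2) (Finset.dvd_sum fun a _ => ?_)
      exact Dvd.dvd.mul_left (dvd_trans hdiv (PP_congr _ _ _ _)) _)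
    refine ⟨l, fun a ha => ?_⟩
    rw [he a]
    linear_combination (-PP k (2 ^ 2 ^ (m + 1 - k)) ζ a b) * hl a ha
  have hJ0 : ∀ a b : ℕ, a < 2 ^ k → 0 < b → b < 2 ^ k → jacobiSum (χ ^ a) (χ ^ b) ≠ 0 := by
    intro a b ha hb0 hb h
    obtain ⟨l, hl⟩ := key b hb0 hb
    have h1 := hl a ha
    rw [h, zero_mul] at h1
    exact PP_ne_zero D hζ a b (neg_eq_zero.1 h1.symm)
  choose! l hl using key
  have h1k : 1 < 2 ^ k := Nat.one_lt_two_pow (by omega)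
  -- symmetry
  have hsym : ∀ a b : ℕ, 0 < a → a < 2 ^ k → 0 < b → b < 2 ^ k →
      ζ ^ (l b * a) = ζ ^ (l a * b) := by
    intro a b ha0 ha hb0 hb
    have h1 := hl b hb0 hb a ha
    have h2 := hl a ha0 ha b hb
    rw [jacobiSum_comm, PP_comm, ← h1] at h2
    exact (mul_left_cancel₀ (hJ0 a b ha hb0 hb) h2).symm
  have hl1 : ζ ^ l 1 = 1 := by
    have h1 := hl 1 one_pos h1k (2 ^ k - 1) (by omega)
    obtain ⟨i, hi⟩ : ∃ i : ℕ, i = 2 ^ k - 1 := ⟨_, rfl⟩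
    have h2 : ((2 ^ k - 1 : ℕ) : ZMod (2 ^ k)) + ((1 : ℕ) : ZMod (2 ^ k)) = 0 := by
      rw [← Nat.cast_add, Nat.sub_add_cancel h1k.le, ZMod.natCast_self]
    rw [PP_deg _ _ (Or.inr (Or.inr h2))] at h1
    have h3 : χ ^ (2 ^ k - 1) * χ ^ 1 = 1 := by
      rw [← pow_add, Nat.sub_add_cancel h1k.le, C.pow_N hζ]
    have h4 : χ ^ 1 = (χ ^ (2 ^ k - 1))⁻¹ := by
      rw [eq_comm, inv_eq_iff_mul_eq_one]
      exact h3
    have n1 := C.ne_one hζ hk D.hpf (by positivity) D.theta (hcast (2 ^ k - 1) (by omega) (by omega))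
    rw [h4, jacobiSum_nontrivial_inv n1] at h1
    have h5 : (χ ^ (2 ^ k - 1)) (-1) = 1 := by
      have h6 := MulChar.pow_apply_coe χ (2 ^ k - 1) (-1 : (ZMod p)ˣ)
      rw [Units.val_neg, Units.val_one] at h6
      rw [h6, chi_neg_one D hζ C, one_pow]
    rw [h5] at h1
    have h6 : ζ ^ (l 1 * (2 ^ k - 1)) = 1 := by linear_combination -h1
    have h7 : ζ ^ (l 1 * 2 ^ k) = 1 := by
      rw [mul_comm, pow_mul, hζ.pow_eq_one, one_pow]
    have h8 : l 1 * 2 ^ k = l 1 * (2 ^ k - 1) + l 1 := by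
      have : 2 ^ k = (2 ^ k - 1) + 1 := by omega
      conv_lhs => rw [this]
      ring
    rw [h8, pow_add, h6, one_mul] at h7
    exact h7
  have hlb : ζ ^ l b = 1 := by
    have h1 := hsym 1 b one_pos h1k hb0 hb
    rw [mul_one, pow_mul, hl1, one_pow] at h1
    exact h1
  have h1 := hl b hb0 hb a ha
  rw [pow_mul, hlb, one_pow, mul_one] at h1
  exact h1

end Pool.Agent.L0h40.GS
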