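import Mathlib
import Pool.Agent.L0h40.GS.Exact
import Pool.Agent.L0h40.WT.Level

/-!
Counting points of the Fermat curve of exponent `2 ^ k` modulo a Fermat prime.
-/

namespace Pool.Agent.L0h40.GS

open Finset NumberField Polynomial Pool.Agent.L0h40.WT

variable {p : ℕ} [Fact p.Prime]
variable {k : ℕ}
variable {K : Type} [Field K] [NumberField K] [IsCyclotomicExtension {2 ^ k} ℚ K]

open scoped Classical in
/-- the number of roots -/
theorem card_roots {m : ℕ} (D : Dat m k p) {ζ : 𝓞 K} (hζ : IsPrimitiveRoot ζ (2 ^ k))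
    {χ : MulChar (ZMod p) (𝓞 K)}
    (C : Cha k p (2 ^ (2 ^ m - k)) ζ ((2 : ZMod p) ^ 2 ^ (m + 1 - k)) χ) (u : ZMod p) :
    ((univ.filter (fun x : ZMod p => x ^ 2 ^ k = u)).card : 𝓞 K) =
      ∑ a ∈ range (2 ^ k), (χ ^ a) u + if u = 0 then 1 else 0 := by
  have hk : 1 ≤ k := by have := D.hk; omega
  have h0 : NeZero (2 ^ k) := ⟨by positivity⟩
  have h5 : (-1 : ZMod p) ≠ 1 := by
    have : Fact (2 < p) := ⟨D.two_lt⟩
    exact ZMod.neg_one_ne_one
  have h6 := theta_prim hk h5 D.theta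
  by_cases hu : u = 0
  · rw [if_pos hu, hu]
    have h1 : univ.filter (fun x : ZMod p => x ^ 2 ^ k = 0) = {0} := by
      ext x
      rw [Finset.mem_filter, Finset.mem_singleton]
      constructor
      · rintro ⟨_, h⟩
        exact eq_zero_of_pow_eq_zero h
      · intro h
        refine ⟨mem_univ _, ?_⟩
        rw [h, zero_pow (by positivity)]
    rw [h1, Finset.card_singleton]
    have h2 : ∑ a ∈ range (2 ^ k), (χ ^ a) (0 : ZMod p) = 0 :=
      Finset.sum_eq_zero fun a _ => MulChar.map_zero _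
    rw [h2]
    simp
  · rw [if_neg hu, add_zero]
    obtain ⟨φ, hφ⟩ := exists_hom hk hζ _ D.theta
    obtain ⟨i, hi⟩ := C.val u hu
    have h1 : ∀ a ∈ range (2 ^ k), (χ ^ a) u = ζ ^ (i * a) := by
      intro a _
      have h2 := MulChar.pow_apply_coe χ a (Units.mk0 u hu)
      rw [Units.val_mk0] at h2
      rw [h2, hi, ← pow_mul]
    rw [Finset.sum_congr rfl h1, geom hζ]
    have h7 : (univ.filter (fun x : ZMod p => x ^ 2 ^ k = u)).card =
        Multiset.card (nthRoots (2 ^ k) u) := by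
      rw [← Multiset.toFinset_card_of_nodup (h6.nthRoots_nodup hu)]
      congr 1
      ext x
      rw [Finset.mem_filter, Multiset.mem_toFinset, mem_nthRoots (by positivity)]
      exact ⟨fun h => h.2, fun h => ⟨mem_univ _, h⟩⟩
    rw [h7, h6.card_nthRoots]
    by_cases h8 : ζ ^ i = 1
    · rw [if_pos h8, if_pos]
      · push_cast
        rfl
      · -- u is a power
        have h9 : u ^ ((2 ^ k - 1) * 2 ^ (2 ^ m - k)) = 1 := by
          have h10 := C.red φ 1 one_pos (by rw [pow_one]; exact hφ) u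
          rw [hi, h8, map_one, mul_one] at h10
          exact h10.symm
        obtain ⟨g, hg⟩ := IsCyclic.exists_generator (α := (ZMod p)ˣ)
        have ho : orderOf g = p - 1 := by
          rw [orderOf_eq_card_of_forall_mem_zpowers hg, Nat.card_eq_fintype_card, ZMod.card_units]
        obtain ⟨n, hn⟩ := (isOfFinOrder_of_finite g).mem_powers_iff_mem_zpowers.2
          (hg (Units.mk0 u hu))
        have hn' : (g : ZMod p) ^ n = u := by
          have := congrArg (Units.val) hn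
          simpa using this
        have h11 : g ^ (n * ((2 ^ k - 1) * 2 ^ (2 ^ m - k))) = 1 := by
          ext
          rw [Units.val_pow_eq_pow_val, pow_mul, hn', h9, Units.val_one]
        have h12 := orderOf_dvd_of_pow_eq_one h11
        rw [ho, D.hpf] at h12
        have h13 : n * ((2 ^ k - 1) * 2 ^ (2 ^ m - k)) = (n * (2 ^ k - 1)) * 2 ^ (2 ^ m - k) := by
          ring
        rw [h13] at h12
        have h14 := Nat.dvd_of_mul_dvd_mul_right (by positivity) h12
        have h15 : Nat.Coprime (2 ^ k) (2 ^ k - 1) := by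
          have h16 : 1 ≤ 2 ^ k := Nat.one_le_two_pow
          have h17 := Nat.coprime_self_add_right (m := 2 ^ k - 1) (n := 1)
          have h18 : Nat.Coprime (2 ^ k - 1) (2 ^ k - 1 + 1) := by simp
          rw [Nat.sub_add_cancel h16] at h18
          exact h18.symm
        have h16 := h15.dvd_of_dvd_mul_right h14
        obtain ⟨c, hc⟩ := h16
        refine ⟨(g : ZMod p) ^ c, ?_⟩
        rw [← pow_mul, mul_comm c, ← hc, hn']
    · rw [if_neg h8, if_neg]
      · simp
      · rintro ⟨α, hα⟩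
        apply h8
        have hα0 : α ≠ 0 := by
          intro h
          rw [h, zero_pow (by positivity)] at hα
          exact hu hα.symm
        rw [← hi, ← hα, map_pow]
        obtain ⟨j, hj⟩ := C.val α hα0
        rw [hj, ← pow_mul, mul_comm, pow_mul, hζ.pow_eq_one, one_pow]

open scoped Classical in
/-- the number of points in terms of Jacobi sums -/
theorem count_jacobi {m : ℕ} (D : Dat m k p) {ζ : 𝓞 K} (hζ : IsPrimitiveRoot ζ (2 ^ k))
    {χ : MulChar (ZMod p) (𝓞 K)}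
    (C : Cha k p (2 ^ (2 ^ m - k)) ζ ((2 : ZMod p) ^ 2 ^ (m + 1 - k)) χ) :
    ((univ.filter (fun z : ZMod p × ZMod p => z.1 ^ 2 ^ k + z.2 ^ 2 ^ k = 1)).card : 𝓞 K) =
      ∑ a ∈ range (2 ^ k), ∑ b ∈ range (2 ^ k), jacobiSum (χ ^ a) (χ ^ b) + 2 * 2 ^ k := by
  have h1 : ((univ.filter (fun z : ZMod p × ZMod p => z.1 ^ 2 ^ k + z.2 ^ 2 ^ k = 1)).card : 𝓞 K) =
      ∑ u : ZMod p, ((univ.filter (fun x : ZMod p => x ^ 2 ^ k = u)).card : 𝓞 K) *
        ((univ.filter (fun x : ZMod p => x ^ 2 ^ k = 1 - u)).card : 𝓞 K) := by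
    have h2 : (univ.filter (fun z : ZMod p × ZMod p => z.1 ^ 2 ^ k + z.2 ^ 2 ^ k = 1)) =
        univ.biUnion (fun u : ZMod p => (univ.filter (fun x : ZMod p => x ^ 2 ^ k = u)) ×ˢ
          (univ.filter (fun x : ZMod p => x ^ 2 ^ k = 1 - u))) := by
      ext z
      simp only [Finset.mem_filter, Finset.mem_univ, true_and, Finset.mem_biUnion,
        Finset.mem_product]
      constructor
      · intro h
        exact ⟨z.1 ^ 2 ^ k, rfl, by rw [← h]; ring⟩
      · rintro ⟨u, h1, h2⟩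
        rw [h1, h2]; ring
    rw [h2, Finset.card_biUnion]
    · push_cast
      refine Finset.sum_congr rfl fun u _ => ?_
      rw [Finset.card_product]
      push_cast
      rfl
    · intro u _ v _ huv
      rw [Function.onFun, Finset.disjoint_left]
      intro z hz hz'
      rw [Finset.mem_product, Finset.mem_filter] at hz hz'
      exact huv (hz.1.2.symm.trans hz'.1.2)
  rw [h1]
  have h2 : ∀ u : ZMod p, ((univ.filter (fun x : ZMod p => x ^ 2 ^ k = u)).card : 𝓞 K) *
        ((univ.filter (fun x : ZMod p => x ^ 2 ^ k = 1 - u)).card : 𝓞 K) =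
        (∑ a ∈ range (2 ^ k), (χ ^ a) u) * (∑ b ∈ range (2 ^ k), (χ ^ b) (1 - u)) +
        (if u = 0 then ∑ b ∈ range (2 ^ k), (χ ^ b) (1 - u) else 0) +
        (if 1 - u = 0 then ∑ a ∈ range (2 ^ k), (χ ^ a) u else 0) := by
    intro u
    rw [card_roots D hζ C, card_roots D hζ C]
    by_cases hu : u = 0
    · have h3 : (1 : ZMod p) - 0 ≠ 0 := by simp
      rw [hu, if_pos rfl, if_neg h3, if_pos rfl, if_neg h3]
      ring
    · by_cases hu1 : 1 - u = 0
      · rw [if_neg hu, if_pos hu1, if_neg hu, if_pos hu1]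
        ring
      · rw [if_neg hu, if_neg hu1, if_neg hu, if_neg hu1]
        ring
  rw [Finset.sum_congr rfl (fun u _ => h2 u), Finset.sum_add_distrib, Finset.sum_add_distrib]
  have h3 : ∑ u : ZMod p, (if u = 0 then ∑ b ∈ range (2 ^ k), (χ ^ b) (1 - u) else 0) =
      2 ^ k := by
    rw [Finset.sum_ite_eq' univ (0 : ZMod p), if_pos (mem_univ _)]
    simp
  have h4 : ∑ u : ZMod p, (if 1 - u = 0 then ∑ a ∈ range (2 ^ k), (χ ^ a) u else 0) =
      2 ^ k := by
    have h5 : ∀ u : ZMod p, (if 1 - u = 0 then ∑ a ∈ range (2 ^ k), (χ ^ a) u else 0) =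
        (if u = 1 then ∑ a ∈ range (2 ^ k), (χ ^ a) u else 0) := by
      intro u
      by_cases h : u = 1
      · rw [if_pos h, if_pos (by rw [h]; ring)]
      · rw [if_neg h, if_neg]
        intro h6
        exact h (sub_eq_zero.1 h6).symm
    rw [Finset.sum_congr rfl (fun u _ => h5 u), Finset.sum_ite_eq' univ (1 : ZMod p),
      if_pos (mem_univ _)]
    simp
  rw [h3, h4]
  have h5 : ∑ u : ZMod p, (∑ a ∈ range (2 ^ k), (χ ^ a) u) *
      (∑ b ∈ range (2 ^ k), (χ ^ b) (1 - u)) =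
      ∑ a ∈ range (2 ^ k), ∑ b ∈ range (2 ^ k), jacobiSum (χ ^ a) (χ ^ b) := by
    unfold jacobiSum
    rw [Finset.sum_congr rfl (fun u _ => Finset.sum_mul_sum _ _ _ _), Finset.sum_comm]
    refine Finset.sum_congr rfl fun a _ => ?_
    rw [Finset.sum_comm]
  rw [h5]
  ring

open scoped Classical in
/-- the number of points -/
theorem count_exact {m : ℕ} (D : Dat m k p) (hkk : k ≤ 2 ^ (m + 1 - k)) {ζ : 𝓞 K}
    (hζ : IsPrimitiveRoot ζ (2 ^ k)) :
    ((univ.filter (fun z : ZMod p × ZMod p => z.1 ^ 2 ^ k + z.2 ^ 2 ^ k = 1)).card : 𝓞 K) =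
      2 ^ 2 ^ m + 2 ^ (k + 1) -
        ∑ a ∈ range (2 ^ k), ∑ b ∈ range (2 ^ k), PP k (2 ^ 2 ^ (m + 1 - k)) ζ a b := by
  have hk : 1 ≤ k := by have := D.hk; omega
  have h0 : NeZero (2 ^ k) := ⟨by positivity⟩
  obtain ⟨χ, C⟩ := exists_Cha (p := p) hk hζ D.hpf (by positivity) D.theta
  rw [count_jacobi D hζ C]
  have h1 : ∀ a ∈ range (2 ^ k), ∀ b ∈ range (2 ^ k), jacobiSum (χ ^ a) (χ ^ b) =
      - PP k (2 ^ 2 ^ (m + 1 - k)) ζ a b + if a = 0 then (if b = 0 then (2 : 𝓞 K) ^ 2 ^ m else 0)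
        else 0 := by
    intro a ha b hb
    rw [Finset.mem_range] at ha hb
    by_cases hb0 : b = 0
    · by_cases ha0 : a = 0
      · rw [if_pos ha0, if_pos hb0, ha0, hb0, pow_zero, jacobiSum_one_one, ZMod.card,
          PP_deg _ _ (Or.inl (by simp)), D.hp]
        push_cast
        ring
      · rw [if_neg ha0, jacobiSum_comm, jacobi_exact D hkk hζ C hb (by omega) ha, PP_comm]
        ring
    · rw [jacobi_exact D hkk hζ C ha (by omega) hb, if_neg hb0]
      simp
  rw [Finset.sum_congr rfl (fun a ha => Finset.sum_congr rfl (fun b hb => h1 a ha b hb))]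
  have h2 : ∑ a ∈ range (2 ^ k), ∑ b ∈ range (2 ^ k),
      (- PP k (2 ^ 2 ^ (m + 1 - k)) ζ a b + if a = 0 then (if b = 0 then (2 : 𝓞 K) ^ 2 ^ m else 0)
        else 0) = - ∑ a ∈ range (2 ^ k), ∑ b ∈ range (2 ^ k),
        PP k (2 ^ 2 ^ (m + 1 - k)) ζ a b + 2 ^ 2 ^ m := by
    rw [← Finset.sum_neg_distrib]
    have h3 : ∀ a ∈ range (2 ^ k), ∑ b ∈ range (2 ^ k),
      (- PP k (2 ^ 2 ^ (m + 1 - k)) ζ a b + if a = 0 then (if b = 0 then (2 : 𝓞 K) ^ 2 ^ m else 0)
        else 0) = - ∑ b ∈ range (2 ^ k), PP k (2 ^ 2 ^ (m + 1 - k)) ζ a b +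
        (if a = 0 then (2 : 𝓞 K) ^ 2 ^ m else 0) := by
      intro a _
      rw [Finset.sum_add_distrib, Finset.sum_neg_distrib]
      congr 1
      split_ifs with h
      · rw [Finset.sum_ite_eq' (range (2 ^ k)) 0, if_pos (Finset.mem_range.2 (by positivity))]
      · exact Finset.sum_const_zero
    rw [Finset.sum_congr rfl h3, Finset.sum_add_distrib,
      Finset.sum_ite_eq' (range (2 ^ k)) 0, if_pos (Finset.mem_range.2 (by positivity))]
  rw [h2, pow_succ]
  ring

end Pool.Agent.L0h40.GS
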