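import Mathlib
import Pool.Agent.L0h40.GS.Exact

/-!
The Gauss sums of the characters of order dividing `2 ^ k` of a Fermat prime.
-/

namespace Pool.Agent.L0h40.GS

open Finset NumberField Polynomial Pool.Agent.L0h40.WT

variable {p : ℕ} [Fact p.Prime]
variable {k : ℕ}

/-- the monomials -/
noncomputable def HH (k : ℕ) (r : (ZMod (2 ^ k))ˣ → ℂ) (a : ℕ) : ℂ :=
  ∏ v : (ZMod (2 ^ k))ˣ, r v ^ ((a : ZMod (2 ^ k)) * ((v⁻¹ : (ZMod (2 ^ k))ˣ) : ZMod (2 ^ k))).val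

theorem HH_zero (r : (ZMod (2 ^ k))ˣ → ℂ) {a : ℕ} (ha : (a : ZMod (2 ^ k)) = 0) :
    HH k r a = 1 := by
  unfold HH
  rw [ha]
  simp

open scoped Classical in
theorem HH_mul (r : (ZMod (2 ^ k))ˣ → ℂ) (a b : ℕ) :
    HH k r a * HH k r b = HH k r (a + b) * ∏ v : (ZMod (2 ^ k))ˣ,
      (if 2 ^ k ≤ ((a : ZMod (2 ^ k)) * ((v⁻¹ : (ZMod (2 ^ k))ˣ) : ZMod (2 ^ k))).val +
        ((b : ZMod (2 ^ k)) * ((v⁻¹ : (ZMod (2 ^ k))ˣ) : ZMod (2 ^ k))).val
        then r v ^ 2 ^ k else 1) := by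
  have h0 : NeZero (2 ^ k) := ⟨by positivity⟩
  unfold HH
  rw [← Finset.prod_mul_distrib, ← Finset.prod_mul_distrib]
  refine Finset.prod_congr rfl fun v _ => ?_
  rw [← pow_add, Nat.cast_add, add_mul, ZMod.val_add]
  obtain ⟨x, hx⟩ : ∃ x, x = ((a : ZMod (2 ^ k)) * ((v⁻¹ : (ZMod (2 ^ k))ˣ) : ZMod (2 ^ k))) :=
    ⟨_, rfl⟩
  obtain ⟨y, hy⟩ : ∃ y, y = ((b : ZMod (2 ^ k)) * ((v⁻¹ : (ZMod (2 ^ k))ˣ) : ZMod (2 ^ k))) :=
    ⟨_, rfl⟩
  rw [← hx, ← hy]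
  have h5 := ZMod.val_lt x
  have h6 := ZMod.val_lt y
  split_ifs with h
  · rw [← pow_add]
    congr 1
    rw [Nat.mod_eq_sub_mod h, Nat.mod_eq_of_lt (by omega)]
    omega
  · rw [mul_one, Nat.mod_eq_of_lt (by omega)]

variable {K : Type} [Field K] [NumberField K] [IsCyclotomicExtension {2 ^ k} ℚ K]

theorem prod_alpha {m : ℕ} (D : Dat m k p) {ζ : 𝓞 K} (hζ : IsPrimitiveRoot ζ (2 ^ k)) :
    ∏ v : (ZMod (2 ^ k))ˣ, (1 - (2 : 𝓞 K) ^ 2 ^ (m + 1 - k) *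
      ζ ^ ((-v : (ZMod (2 ^ k))ˣ) : ZMod (2 ^ k)).val) = (p : 𝓞 K) := by
  have hk : 1 ≤ k := by have := D.hk; omega
  have h1 := (famA (K := K) D.hk D.hkm D.hp hζ).prod
  have h2 := prod_units hk hζ 0
  rw [zero_pow (by positivity), zero_add] at h2
  have h4 : (∏ v : (ZMod (2 ^ k))ˣ, (1 - (2 : 𝓞 K) ^ 2 ^ (m + 1 - k) *
      ζ ^ ((-v : (ZMod (2 ^ k))ˣ) : ZMod (2 ^ k)).val)) *
      ∏ v : (ZMod (2 ^ k))ˣ, (0 - ζ ^ (v : ZMod (2 ^ k)).val) =
      ∏ v : (ZMod (2 ^ k))ˣ, ((2 : 𝓞 K) ^ 2 ^ (m + 1 - k) - ζ ^ (v : ZMod (2 ^ k)).val) := by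
    rw [← Finset.prod_mul_distrib]
    refine Finset.prod_congr rfl fun v _ => ?_
    have h3 := zeta_neg hk hζ v
    linear_combination (2 : 𝓞 K) ^ 2 ^ (m + 1 - k) * h3
  rw [h2, mul_one, h1] at h4
  exact h4

/-- Gauss sums -/
theorem gauss_exact {m : ℕ} (D : Dat m k p) (hkk : k ≤ 2 ^ (m + 1 - k)) {ζ : 𝓞 K}
    (hζ : IsPrimitiveRoot ζ (2 ^ k))
    {χ : MulChar (ZMod p) (𝓞 K)}
    (C : Cha k p (2 ^ (2 ^ m - k)) ζ ((2 : ZMod p) ^ 2 ^ (m + 1 - k)) χ)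
    (τ : 𝓞 K →+* ℂ) (ψ : AddChar (ZMod p) ℂ) (hψ : ψ ≠ 1) :
    ∃ r : (ZMod (2 ^ k))ˣ → ℂ, (∀ v, r v ^ 2 ^ k =
      1 - 2 ^ 2 ^ (m + 1 - k) * (τ ζ) ^ ((-v : (ZMod (2 ^ k))ˣ) : ZMod (2 ^ k)).val) ∧
      ∀ a < 2 ^ k, gaussSum ((χ.ringHomComp τ) ^ a) ψ = - HH k r a := by
  classical
  have hk : 1 ≤ k := by have := D.hk; omega
  have h0 : NeZero (2 ^ k) := ⟨by positivity⟩
  have h1k : 1 < 2 ^ k := Nat.one_lt_two_pow (by omega)
  have hψp : ψ.IsPrimitive := AddChar.IsPrimitive.of_ne_one hψ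
  have hp0 : p ≠ 0 := (Fact.out : p.Prime).ne_zero
  have hcard : (Fintype.card (ZMod p) : ℂ) ≠ 0 := by
    rw [ZMod.card]
    exact_mod_cast hp0
  have hτ : Function.Injective τ := by
    rw [RingHom.injective_iff_ker_eq_bot]
    apply Ideal.eq_bot_of_comap_eq_bot (R := ℤ) (S := 𝓞 K)
    rw [eq_bot_iff]
    intro x hx
    rw [Ideal.mem_comap, RingHom.mem_ker] at hx
    rw [Ideal.mem_bot]
    have h1 : τ (algebraMap ℤ (𝓞 K) x) = (x : ℂ) := by simp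
    rw [h1] at hx
    exact_mod_cast hx
  have hroots : ∀ v : (ZMod (2 ^ k))ˣ, ∃ r : ℂ, r ^ 2 ^ k =
      1 - 2 ^ 2 ^ (m + 1 - k) * (τ ζ) ^ ((-v : (ZMod (2 ^ k))ˣ) : ZMod (2 ^ k)).val := by
    intro v
    exact IsAlgClosed.exists_pow_nat_eq _ (by positivity)
  choose r hr using hroots
  have hprod : ∏ v, r v ^ 2 ^ k = (p : ℂ) := by
    have h1 := congrArg τ (prod_alpha (K := K) D hζ)
    rw [map_prod, map_natCast] at h1
    rw [← h1]
    refine Finset.prod_congr rfl fun v _ => ?_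
    rw [hr v, map_sub, map_one, map_mul, map_pow, map_pow, map_ofNat]
  have hr0 : ∀ v, r v ≠ 0 := by
    intro v h
    have h1 : ∏ v, r v ^ 2 ^ k = 0 := by
      apply Finset.prod_eq_zero (mem_univ v)
      rw [h, zero_pow (by positivity)]
    rw [hprod] at h1
    exact hp0 (by exact_mod_cast h1)
  have hH0 : ∀ a, HH k r a ≠ 0 := by
    intro a
    unfold HH
    rw [Finset.prod_ne_zero_iff]
    intro v _
    exact pow_ne_zero _ (hr0 v)
  have hcast : ∀ c : ℕ, 0 < c → c < 2 ^ k → (c : ZMod (2 ^ k)) ≠ 0 := by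
    intro c hc1 hc2 h
    rw [ZMod.natCast_eq_zero_iff] at h
    have := Nat.le_of_dvd hc1 h
    omega
  -- powers of the character
  have hpow : ∀ a : ℕ, (χ.ringHomComp τ) ^ a = (χ ^ a).ringHomComp τ := by
    intro a
    rw [MulChar.ringHomComp_pow]
  have hone : ∀ a : ℕ, (a : ZMod (2 ^ k)) = 0 → (χ.ringHomComp τ) ^ a = 1 := by
    intro a ha
    have h1 : χ ^ a = 1 := by
      rw [C.mod hζ, Nat.mod_eq_zero_of_dvd ((ZMod.natCast_eq_zero_iff _ _).1 ha), pow_zero]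
    rw [hpow, h1]
    ext x
    simp
  have hne : ∀ a : ℕ, (a : ZMod (2 ^ k)) ≠ 0 → (χ.ringHomComp τ) ^ a ≠ 1 := by
    intro a ha
    rw [hpow]
    exact (MulChar.ringHomComp_ne_one_iff hτ).2 (C.ne_one hζ hk D.hpf (by positivity) D.theta ha)
  have hG1 : ∀ a : ℕ, (a : ZMod (2 ^ k)) = 0 → gaussSum ((χ.ringHomComp τ) ^ a) ψ = -1 := by
    intro a ha
    rw [hone a ha, gaussSum_one_left hψ]
  -- the main relation
  have key : ∀ a b : ℕ, a < 2 ^ k → 0 < b → b < 2 ^ k →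
      (-gaussSum ((χ.ringHomComp τ) ^ a) ψ) * (-gaussSum ((χ.ringHomComp τ) ^ b) ψ) *
        HH k r (a + b) =
      (-gaussSum ((χ.ringHomComp τ) ^ (a + b)) ψ) * (HH k r a * HH k r b) := by
    intro a b ha hb0 hb
    rw [HH_mul]
    by_cases ha0 : (a : ZMod (2 ^ k)) = 0
    · have h1 : ((a + b : ℕ) : ZMod (2 ^ k)) = b := by push_cast; rw [ha0, zero_add]
      have h3 : (χ.ringHomComp τ) ^ (a + b) = (χ.ringHomComp τ) ^ b := by
        rw [pow_add, hone a ha0, one_mul]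
      rw [hG1 a ha0, h3, ha0]
      have h4 : ∏ v : (ZMod (2 ^ k))ˣ,
          (if 2 ^ k ≤ ((0 : ZMod (2 ^ k)) * ((v⁻¹ : (ZMod (2 ^ k))ˣ) : ZMod (2 ^ k))).val +
          ((b : ZMod (2 ^ k)) * ((v⁻¹ : (ZMod (2 ^ k))ˣ) : ZMod (2 ^ k))).val
          then r v ^ 2 ^ k else 1) = 1 := by
        apply Finset.prod_eq_one
        intro v _
        rw [if_neg]
        rw [zero_mul, ZMod.val_zero, zero_add, not_le]
        exact ZMod.val_lt _
      rw [h4]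
      ring
    by_cases hab : (a : ZMod (2 ^ k)) + b = 0
    · have h1 : ((a + b : ℕ) : ZMod (2 ^ k)) = 0 := by push_cast; exact hab
      rw [hG1 _ h1, HH_zero r h1]
      have h2 : (χ.ringHomComp τ) ^ b = ((χ.ringHomComp τ) ^ a)⁻¹ := by
        rw [eq_comm, inv_eq_iff_mul_eq_one, ← pow_add]
        exact hone _ h1
      have h3 := gaussSum_mul_gaussSum_eq_card (hne a ha0) hψp
      have h4 := mul_gaussSum_inv_eq_gaussSum (((χ.ringHomComp τ) ^ a)⁻¹) ψ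
      have h5 : (((χ.ringHomComp τ) ^ a)⁻¹) (-1) = 1 := by
        rw [← h2]
        have h6 := MulChar.pow_apply_coe (χ.ringHomComp τ) b (-1 : (ZMod p)ˣ)
        rw [Units.val_neg, Units.val_one] at h6
        rw [h6, MulChar.ringHomComp_apply, chi_neg_one D hζ C, map_one, one_pow]
      rw [h5, one_mul] at h4
      rw [h4, ← h2, ZMod.card] at h3
      have h7 : ∏ v : (ZMod (2 ^ k))ˣ,
          (if 2 ^ k ≤ ((a : ZMod (2 ^ k)) * ((v⁻¹ : (ZMod (2 ^ k))ˣ) : ZMod (2 ^ k))).val +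
          ((b : ZMod (2 ^ k)) * ((v⁻¹ : (ZMod (2 ^ k))ˣ) : ZMod (2 ^ k))).val
          then r v ^ 2 ^ k else 1) = p := by
        rw [← hprod]
        refine Finset.prod_congr rfl fun v _ => ?_
        rw [if_pos]
        have h8 : (b : ZMod (2 ^ k)) * ((v⁻¹ : (ZMod (2 ^ k))ˣ) : ZMod (2 ^ k)) =
            -((a : ZMod (2 ^ k)) * ((v⁻¹ : (ZMod (2 ^ k))ˣ) : ZMod (2 ^ k))) := by
          linear_combination hab * ((v⁻¹ : (ZMod (2 ^ k))ˣ) : ZMod (2 ^ k))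
        have h9 : (a : ZMod (2 ^ k)) * ((v⁻¹ : (ZMod (2 ^ k))ˣ) : ZMod (2 ^ k)) ≠ 0 := by
          intro h
          apply ha0
          rwa [Units.mul_left_eq_zero] at h
        rw [h8, ZMod.neg_val, if_neg h9]
        have := ZMod.val_lt ((a : ZMod (2 ^ k)) * ((v⁻¹ : (ZMod (2 ^ k))ˣ) : ZMod (2 ^ k)))
        omega
      rw [h7]
      linear_combination h3
    · have hb1 := hcast b hb0 hb
      have h1 : ((a + b : ℕ) : ZMod (2 ^ k)) ≠ 0 := by push_cast; exact hab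
      have h2 := jacobiSum_mul_nontrivial (χ := (χ.ringHomComp τ) ^ a)
        (φ := (χ.ringHomComp τ) ^ b) (by rw [← pow_add]; exact hne _ h1) ψ
      have h3 : jacobiSum ((χ.ringHomComp τ) ^ a) ((χ.ringHomComp τ) ^ b) =
          τ (- PP k (2 ^ 2 ^ (m + 1 - k)) ζ a b) := by
        rw [hpow, hpow, jacobiSum_ringHomComp, jacobi_exact D hkk hζ C ha hb0 hb]
      have h4 : ∏ v : (ZMod (2 ^ k))ˣ,
          (if 2 ^ k ≤ ((a : ZMod (2 ^ k)) * ((v⁻¹ : (ZMod (2 ^ k))ˣ) : ZMod (2 ^ k))).val +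
          ((b : ZMod (2 ^ k)) * ((v⁻¹ : (ZMod (2 ^ k))ˣ) : ZMod (2 ^ k))).val
          then r v ^ 2 ^ k else 1) = τ (PP k (2 ^ 2 ^ (m + 1 - k)) ζ a b) := by
        unfold PP
        rw [map_prod, ← Finset.prod_filter]
        have h5 : univ.filter (fun v : (ZMod (2 ^ k))ˣ =>
            2 ^ k ≤ ((a : ZMod (2 ^ k)) * ((v⁻¹ : (ZMod (2 ^ k))ˣ) : ZMod (2 ^ k))).val +
            ((b : ZMod (2 ^ k)) * ((v⁻¹ : (ZMod (2 ^ k))ˣ) : ZMod (2 ^ k))).val) = WW k a b := by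
          ext v
          rw [Finset.mem_filter, mem_WW]
          have h7 : ((a : ZMod (2 ^ k)) * ((v⁻¹ : (ZMod (2 ^ k))ˣ) : ZMod (2 ^ k))).val +
              ((b : ZMod (2 ^ k)) * ((v⁻¹ : (ZMod (2 ^ k))ˣ) : ZMod (2 ^ k))).val ≠ 2 ^ k := by
            intro h
            have := congrArg (Nat.cast : ℕ → ZMod (2 ^ k)) h
            rw [Nat.cast_add, ZMod.natCast_zmod_val, ZMod.natCast_zmod_val, ZMod.natCast_self,
              ← add_mul, Units.mul_left_eq_zero] at this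
            exact hab this
          constructor
          · rintro ⟨_, h⟩
            omega
          · intro h
            exact ⟨mem_univ _, by omega⟩
        rw [h5]
        refine Finset.prod_congr rfl fun v _ => ?_
        rw [hr v, map_sub, map_one, map_mul, map_pow, map_pow, map_ofNat]
      rw [h4]
      rw [h3, map_neg, ← pow_add] at h2
      linear_combination (-HH k r (a + b)) * h2
  -- the multiplier
  obtain ⟨t, ht⟩ : ∃ t : ℕ → ℂ, t = fun a => -gaussSum ((χ.ringHomComp τ) ^ a) ψ / HH k r a :=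
    ⟨_, rfl⟩
  have hGt : ∀ a, -gaussSum ((χ.ringHomComp τ) ^ a) ψ = t a * HH k r a := by
    intro a
    rw [ht]
    field_simp [hH0 a]
  have ht0 : t 0 = 1 := by
    rw [ht]
    simp only
    rw [hG1 0 (by simp), HH_zero r (by simp)]
    norm_num
  have htadd : ∀ a < 2 ^ k, t (a + 1) = t a * t 1 := by
    intro a ha
    have h1 := key a 1 ha one_pos h1k
    rw [hGt, hGt, hGt] at h1
    have h2 : HH k r a * HH k r 1 * HH k r (a + 1) ≠ 0 :=
      mul_ne_zero (mul_ne_zero (hH0 a) (hH0 1)) (hH0 _)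
    apply mul_right_cancel₀ h2
    linear_combination -h1
  have htpow : ∀ a ≤ 2 ^ k, t a = t 1 ^ a := by
    intro a
    induction a with
    | zero => intro _; rw [ht0, pow_zero]
    | succ a ih =>
      intro ha
      rw [htadd a (by omega), ih (by omega), pow_succ]
  have htN : t 1 ^ 2 ^ k = 1 := by
    rw [← htpow _ le_rfl, ht]
    simp only
    have h1 : ((2 ^ k : ℕ) : ZMod (2 ^ k)) = 0 := ZMod.natCast_self _
    rw [hG1 _ h1, HH_zero r h1]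
    norm_num
  refine ⟨Function.update r 1 (r 1 * t 1), ?_, ?_⟩
  · intro v
    by_cases hv : v = 1
    · rw [hv, Function.update_self, mul_pow, htN, mul_one, hr 1]
    · rw [Function.update_of_ne hv, hr v]
  · intro a ha
    have h1 : HH k (Function.update r 1 (r 1 * t 1)) a = t 1 ^ a * HH k r a := by
      unfold HH
      rw [← Finset.mul_prod_erase univ _ (mem_univ (1 : (ZMod (2 ^ k))ˣ)),
        ← Finset.mul_prod_erase univ (fun v => r v ^ ((a : ZMod (2 ^ k)) *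
          ((v⁻¹ : (ZMod (2 ^ k))ˣ) : ZMod (2 ^ k))).val) (mem_univ (1 : (ZMod (2 ^ k))ˣ)),
        Function.update_self]
      have h2 : ∏ v ∈ univ.erase (1 : (ZMod (2 ^ k))ˣ), Function.update r 1 (r 1 * t 1) v ^
          ((a : ZMod (2 ^ k)) * ((v⁻¹ : (ZMod (2 ^ k))ˣ) : ZMod (2 ^ k))).val =
          ∏ v ∈ univ.erase (1 : (ZMod (2 ^ k))ˣ), r v ^
          ((a : ZMod (2 ^ k)) * ((v⁻¹ : (ZMod (2 ^ k))ˣ) : ZMod (2 ^ k))).val := by
        refine Finset.prod_congr rfl fun v hv => ?_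
        rw [Finset.mem_erase] at hv
        rw [Function.update_of_ne hv.1]
      rw [h2]
      have h3 : ((a : ZMod (2 ^ k)) * (((1 : (ZMod (2 ^ k))ˣ)⁻¹ : (ZMod (2 ^ k))ˣ) :
          ZMod (2 ^ k))).val = a := by
        rw [inv_one, Units.val_one, mul_one, ZMod.val_natCast, Nat.mod_eq_of_lt ha]
      rw [h3, mul_pow]
      ring
    rw [h1, ← htpow a ha.le]
    linear_combination -hGt a

end Pool.Agent.L0h40.GS
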