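import Mathlib
import Pool.Agent.L0h40.GS.Gauss
import Pool.Agent.L0h40.WT.Level

/-!
The Gauss periods of a Fermat prime.
-/

namespace Pool.Agent.L0h40.GS

open Finset NumberField Polynomial Pool.Agent.L0h40.WT

variable {p : ℕ} [Fact p.Prime]
variable {k : ℕ}

theorem geomC {w : ℂ} (hw : w ^ 2 ^ k = 1) :
    ∑ a ∈ range (2 ^ k), w ^ a = if w = 1 then (2 ^ k : ℂ) else 0 := by
  split_ifs with h
  · rw [h]
    simp
  · have h1 : (∑ a ∈ range (2 ^ k), w ^ a) * (w - 1) = w ^ 2 ^ k - 1 :=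
      geom_sum_mul _ _
    rw [hw, sub_self] at h1
    rcases mul_eq_zero.1 h1 with h2 | h2
    · exact h2
    · exact absurd (sub_eq_zero.1 h2) h

/-- the Gauss periods in closed form -/
theorem periods {m : ℕ} (D : Dat m k p) (hkk : k ≤ 2 ^ (m + 1 - k)) {ζ : ℂ}
    (hζ : IsPrimitiveRoot ζ (2 ^ k)) (ψ : AddChar (ZMod p) ℂ) (hψ : ψ ≠ 1) :
    ∃ r : (ZMod (2 ^ k))ˣ → ℂ, (∀ v, r v ^ 2 ^ k =
      1 - 2 ^ 2 ^ (m + 1 - k) * ζ ^ ((-v : (ZMod (2 ^ k))ˣ) : ZMod (2 ^ k)).val) ∧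
      ∀ i : ℕ, (2 : ℂ) ^ k * ∑ x ∈ univ.filter (fun x : ZMod p =>
          x ^ 2 ^ (2 ^ m - k) = (2 ^ 2 ^ (m + 1 - k)) ^ i), ψ x =
        - ∑ a ∈ range (2 ^ k), ζ ^ (i * a) * ∏ v : (ZMod (2 ^ k))ˣ,
          r v ^ ((a : ZMod (2 ^ k)) * ((v⁻¹ : (ZMod (2 ^ k))ˣ) : ZMod (2 ^ k))).val := by
  classical
  have hk : 1 ≤ k := by have := D.hk; omega
  have h0 : NeZero (2 ^ k) := ⟨by positivity⟩
  obtain ⟨K, _, _, _⟩ := exists_field k
  have hz := IsCyclotomicExtension.zeta_spec (2 ^ k) ℚ K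
  have hζK := hz.toInteger_isPrimitiveRoot
  obtain ⟨ζK, hζd⟩ : ∃ ζK, ζK = hz.toInteger := ⟨_, rfl⟩
  rw [← hζd] at hζK
  have hhalf : ζ ^ 2 ^ (k - 1) = -1 := by
    have h2 : (ζ ^ 2 ^ (k - 1)) ^ 2 = 1 := by
      rw [← pow_mul, ← pow_succ]
      have : k - 1 + 1 = k := by omega
      rw [this, hζ.pow_eq_one]
    have h3 : ζ ^ 2 ^ (k - 1) ≠ 1 := by
      intro h
      have := (hζ.pow_eq_one_iff_dvd _).1 h
      have h5 := Nat.le_of_dvd (by positivity) this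
      have h6 : 2 ^ (k - 1) < 2 ^ k := Nat.pow_lt_pow_right (by norm_num) (by omega)
      omega
    rcases sq_eq_one_iff.1 h2 with h | h
    · exact absurd h h3
    · exact h
  obtain ⟨τ, hτ⟩ := exists_hom (R := ℂ) hk hζK ζ hhalf
  obtain ⟨φ, hφ⟩ := exists_hom hk hζK _ (D.theta)
  obtain ⟨χ, C⟩ := exists_Cha (p := p) hk hζK D.hpf (by positivity) D.theta
  obtain ⟨r, hr1, hr2⟩ := gauss_exact D hkk hζK C τ ψ hψ
  rw [hτ] at hr1
  refine ⟨r, hr1, fun i => ?_⟩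
  have h5 : (-1 : ZMod p) ≠ 1 := by
    have : Fact (2 < p) := ⟨D.two_lt⟩
    exact ZMod.neg_one_ne_one
  have h6 := theta_prim hk h5 D.theta
  obtain ⟨θ, hθ⟩ : ∃ θ, θ = (2 : ZMod p) ^ 2 ^ (m + 1 - k) := ⟨_, rfl⟩
  rw [← hθ] at hφ h6 C ⊢
  -- the fibres of the character
  have hfib : ∀ x : ZMod p, x ≠ 0 → (ζ ^ i * τ (χ x) = 1 ↔ x ^ 2 ^ (2 ^ m - k) = θ ^ i) := by
    intro x hx
    obtain ⟨j, hj⟩ := C.val x hx
    have h7 := C.red φ 1 one_pos (by rw [pow_one]; exact hφ) x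
    rw [hj, map_pow, hφ, mul_one] at h7
    have h8 : x ^ 2 ^ (2 ^ m - k) * θ ^ j = 1 := by
      rw [h7, ← pow_add]
      have h9 : 2 ^ (2 ^ m - k) + (2 ^ k - 1) * 2 ^ (2 ^ m - k) = p - 1 := by
        rw [D.hpf]
        have : 1 ≤ 2 ^ k := Nat.one_le_two_pow
        obtain ⟨c, hc⟩ : ∃ c, 2 ^ k = c + 1 := ⟨2 ^ k - 1, by omega⟩
        rw [hc, Nat.add_sub_cancel]; ring
      rw [h9]
      exact ZMod.pow_card_sub_one_eq_one hx
    have h9 : θ ^ j ≠ 0 := by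
      intro h
      rw [h, mul_zero] at h8
      exact zero_ne_one h8
    rw [hj, map_pow, hτ, ← pow_add, hζ.pow_eq_one_iff_dvd, ← h6.pow_eq_one_iff_dvd, pow_add]
    constructor
    · intro h
      apply mul_right_cancel₀ h9
      rw [h8, h]
    · intro h
      rw [← h, h8]
  have hsum : ∑ a ∈ range (2 ^ k), ζ ^ (i * a) * gaussSum ((χ.ringHomComp τ) ^ a) ψ =
      (2 : ℂ) ^ k * ∑ x ∈ univ.filter (fun x : ZMod p =>
          x ^ 2 ^ (2 ^ m - k) = θ ^ i), ψ x := by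
    unfold gaussSum
    rw [Finset.sum_congr rfl (fun a _ => Finset.mul_sum _ _ _), Finset.sum_comm, Finset.mul_sum,
      Finset.sum_filter]
    refine Finset.sum_congr rfl fun x _ => ?_
    by_cases hx : x = 0
    · have h7 : ¬ (x ^ 2 ^ (2 ^ m - k) = θ ^ i) := by
        rw [hx, zero_pow (by positivity)]
        intro h
        have h8 : θ ≠ 0 := by
          intro h9
          rw [h9] at h6
          have := h6.pow_eq_one
          rw [zero_pow (by positivity)] at this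
          exact zero_ne_one this
        exact pow_ne_zero i h8 h.symm
      rw [if_neg h7]
      apply Finset.sum_eq_zero
      intro a _
      rw [hx, MulChar.map_zero, zero_mul, mul_zero]
    · have h7 : ∀ a ∈ range (2 ^ k), ζ ^ (i * a) * (((χ.ringHomComp τ) ^ a) x * ψ x) =
          (ζ ^ i * τ (χ x)) ^ a * ψ x := by
        intro a _
        have h2 := MulChar.pow_apply_coe (χ.ringHomComp τ) a (Units.mk0 x hx)
        rw [Units.val_mk0, MulChar.ringHomComp_apply] at h2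
        rw [h2, pow_mul, mul_pow]
        ring
      rw [Finset.sum_congr rfl h7, ← Finset.sum_mul]
      obtain ⟨j, hj⟩ := C.val x hx
      rw [geomC (by rw [hj, map_pow, hτ, ← pow_add, ← pow_mul, mul_comm, pow_mul,
        hζ.pow_eq_one, one_pow])]
      have h8 := hfib x hx
      split_ifs with h9 h10 h10
      · rfl
      · exact absurd (h8.1 h9) h10
      · exact absurd (h8.2 h10) h9
      · rw [zero_mul]
  rw [← hsum, ← Finset.sum_neg_distrib]
  refine Finset.sum_congr rfl fun a ha => ?_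
  rw [hr2 a (Finset.mem_range.1 ha)]
  unfold HH
  ring

end Pool.Agent.L0h40.GS
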